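import Pool.Agent.Helper89.RAT.Exp
import Pool.Agent.Helper14.MC.Vopt

/-! CLASS-FREE COMPARISON: if a form dominates another one in the join, its volume is smaller and its exponents are
larger. -/

set_option autoImplicit false

namespace Pool.Agent.Helper89.RAK

open Finset Filter Topology Matrix Pool.Agent.Helper69.RK Pool.Agent.Helper31.EC Pool.Agent.Helper31.EC.Sp
open Pool.Agent.Helper40.EL Pool.Agent.Helper89.LX Pool.Agent.Helper3.LF Pool.Agent.Helper84.MT
open Pool.Agent.Helper95.LF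
open Pool.Agent.Helper42.NS (osp u1 u1_dg u1_h osp_dl)
open Pool.Agent.Helper59.EV (sum_split_le)
open Pool.Agent.Helper14.MC
open Pool.Agent.Helper89.RAT

noncomputable section

variable {S : Sp} {M D : ℕ}

/-- `x` dominates `y` in the join -/
def DomJ {ι : Type} [Fintype ι] (x y : ∀ k, FD (S.F k) ι) : Prop := ∀ e : ℝ, 0 < e →
  Tendsto (fun k => ((x k).jj (y k)).l.T.pb (fun w =>
      ¬ ∀ v, qf (((x k).jj (y k)).g' w) v ≤ 2 ^ (e * (S.F k).n) * qf (((x k).jj (y k)).g w) v)) UF (𝓝 0)

variable {κ κ' : Type} {A : κ → Part S} {B : κ' → Part S} {Q : S.VV M}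

/-- a form which dominates another one has a smaller volume -/
theorem DomJ.vol_le {x y : ∀ k, FD (S.F k) (Mon M D)} (hd : DomJ x y) (hx : (gaq Q D).Adf A x)
    (hy : (gaq Q D).Adf B y) : vol Q D x ≤ vol Q D y := by
  classical
  rw [vol_eq, vol_eq]
  have hUx := vx_UB hx
  have hUy := vx_UB hy
  set C : ℝ := (((gaq Q D).C + 1) + 3) * M with hC
  have hC0 : 0 ≤ C := by
    have := (gaq Q D).C0
    positivity
  have hbd := gexq_bd (oQ (lb y) Q) _ ((gaq Q D).C + 1) (by linarith [(gaq Q D).C0]) (adf_cap hy)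
  have hnn := gexq_nonneg (oQ (lb x) Q) _ _ (adf_cap hx)
  suffices h : ∀ e : ℝ, 0 < e → ul (vx Q y) ≤ ul (vx Q x) + e * M by
    have h2 : ul (vx Q y) ≤ ul (vx Q x) := by
      apply le_of_forall_pos_le_add
      intro ε hε
      have h3 := h (ε / (M + 1)) (by positivity)
      have h4 : ε / (M + 1) * M ≤ ε := by
        rw [div_mul_eq_mul_div, div_le_iff₀ (by positivity)]
        nlinarith
      linarith
    linarith
  intro e he
  have hdom := hd e he
  have hle : ∀ᶠ k in UF, vx Q y k ≤ vx Q x k + (e * M + C * (((x k).jj (y k)).l.T.pb (fun w =>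
      ¬ ∀ v, qf (((x k).jj (y k)).g' w) v ≤ 2 ^ (e * (S.F k).n) * qf (((x k).jj (y k)).g w) v))) := by
    filter_upwards [hbd, hnn, hx 1 one_pos, hy 1 one_pos] with k b1 b2 b3 b4
    have hn := (S.F k).pos
    have e1 : vx Q y k = ∑ w, ((x k).jj (y k)).l.T.μ w *
        gx Q k ((y k).l.p.π (((x k).l.am (y k).l).p2.π w)) ((y k).g (((x k).l.am (y k).l).p2.π w)) :=
      (sum_push ((x k).l.am (y k).l).p2 (fun ω => gx Q k ((y k).l.p.π ω) ((y k).g ω))).symm
    have e2 : vx Q x k = ∑ w, ((x k).jj (y k)).l.T.μ w *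
        gx Q k ((x k).l.p.π (((x k).l.am (y k).l).p1.π w)) ((x k).g (((x k).l.am (y k).l).p1.π w)) :=
      (sum_push ((x k).l.am (y k).l).p1 (fun ω => gx Q k ((x k).l.p.π ω) ((x k).g ω))).symm
    have h1 := sum_split_le (F := ((x k).jj (y k)).l.T)
      (fun w => gx Q k ((y k).l.p.π (((x k).l.am (y k).l).p2.π w)) ((y k).g (((x k).l.am (y k).l).p2.π w)) -
        gx Q k ((x k).l.p.π (((x k).l.am (y k).l).p1.π w)) ((x k).g (((x k).l.am (y k).l).p1.π w)))
      (fun w => ∀ v, qf (((x k).jj (y k)).g' w) v ≤ 2 ^ (e * (S.F k).n) * qf (((x k).jj (y k)).g w) v)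
      (e * M) C (by positivity) hC0 (by
        intro w hw hE
        have s1 := ((x k).l.am (y k).l).p1.supp w hw
        have s2 := ((x k).l.am (y k).l).p2.supp w hw
        have s3 := (x k).jj_supp (y k) w hw
        have c1 := (b3.2.1 _ s1).1
        have c2 := (b4.2.1 _ s2).1
        rw [← s3]
        set p := Q.v k ((x k).l.p.π (((x k).l.am (y k).l).p1.π w)) with hp
        set g1 := (x k).g (((x k).l.am (y k).l).p1.π w) with hg1
        set g2 := (y k).g (((x k).l.am (y k).l).p2.π w) with hg2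
        have h2 := GQ_dom (S.dl 1 k) g1 g2 c1.1 c1.psd.2 c2.1 c2.psd.2 p (2 ^ (e * (S.F k).n))
          (Real.one_le_rpow (by norm_num) (by positivity)) hE
        have h3 := one_le_GQ (S.dl 1 k) c1.1 c1.psd.2 p
        have h4 := one_le_GQ (S.dl 1 k) c2.1 c2.psd.2 p
        have h5 := Real.logb_le_logb_of_le (b := 2) (by norm_num) (by linarith) h2
        rw [Real.logb_mul (by positivity) (by linarith), Real.logb_pow,
          Real.logb_rpow (by norm_num) (by norm_num)] at h5
        show Real.logb 2 (GQ (S.dl 1 k) g2 p) / (2 * (S.F k).n) -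
          Real.logb 2 (GQ (S.dl 1 k) g1 p) / (2 * (S.F k).n) ≤ e * M
        rw [← sub_div, div_le_iff₀ (by positivity)]
        have h6 : 0 ≤ (M : ℝ) * (e * (S.F k).n) := by positivity
        linarith) (by
        intro w hw
        have s1 := ((x k).l.am (y k).l).p1.supp w hw
        have s2 := ((x k).l.am (y k).l).p2.supp w hw
        have d1 := b1 _ s2
        have d2 := b2 _ s1
        have f1 : gexq (oQ (lb y) Q) (fun k (ω : (y k).l.T.Ω) => (y k).g ω) k (((x k).l.am (y k).l).p2.π w) =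
            gx Q k ((y k).l.p.π (((x k).l.am (y k).l).p2.π w)) ((y k).g (((x k).l.am (y k).l).p2.π w)) := by
          unfold gexq gx
          rw [osp_dl, osp_n]
          rfl
        have f2 : gexq (oQ (lb x) Q) (fun k (ω : (x k).l.T.Ω) => (x k).g ω) k (((x k).l.am (y k).l).p1.π w) =
            gx Q k ((x k).l.p.π (((x k).l.am (y k).l).p1.π w)) ((x k).g (((x k).l.am (y k).l).p1.π w)) := by
          unfold gexq gx
          rw [osp_dl, osp_n]
          rfl
        rw [f1] at d1
        rw [f2] at d2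
        linarith)
    have e3 : ∑ w, ((x k).jj (y k)).l.T.μ w *
        (gx Q k ((y k).l.p.π (((x k).l.am (y k).l).p2.π w)) ((y k).g (((x k).l.am (y k).l).p2.π w)) -
        gx Q k ((x k).l.p.π (((x k).l.am (y k).l).p1.π w)) ((x k).g (((x k).l.am (y k).l).p1.π w))) =
        vx Q y k - vx Q x k := by
      rw [e1, e2, ← Finset.sum_sub_distrib]
      exact Finset.sum_congr rfl fun w _ => by ring
    have h2 : ∑ w, ((x k).jj (y k)).l.T.μ w *
        (gx Q k ((y k).l.p.π (((x k).l.am (y k).l).p2.π w)) ((y k).g (((x k).l.am (y k).l).p2.π w)) -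
        gx Q k ((x k).l.p.π (((x k).l.am (y k).l).p1.π w)) ((x k).g (((x k).l.am (y k).l).p1.π w))) ≤
        e * M + C * (((x k).jj (y k)).l.T.pb (fun w =>
      ¬ ∀ v, qf (((x k).jj (y k)).g' w) v ≤ 2 ^ (e * (S.F k).n) * qf (((x k).jj (y k)).g w) v)) := h1
    rw [e3] at h2
    linarith
  have t1 := ul_tendsto hUx
  have t2 := ul_tendsto hUy
  have t3 := t1.add ((hdom.const_mul C).const_add (e * M))
  rw [mul_zero, add_zero] at t3
  exact le_of_tendsto_of_tendsto t2 t3 hle


/-- a form which dominates another one has a larger exponent -/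
theorem DomJ.zx_le {x y : ∀ k, FD (S.F k) (Mon M D)} (hd : DomJ x y) (hx : (gaq Q D).Adf A x)
    (hy : (gaq Q D).Adf B y) (z : Fin M) : zx Q z y ≤ zx Q z x := by
  classical
  obtain ⟨C, hC, hb⟩ := xz_bd z hy
  obtain ⟨C', -, hb'⟩ := xz_bd z hx
  have hUx := zv_UB z hx
  have hUy := zv_UB z hy
  apply le_of_forall_pos_le_add
  intro e he
  have e1 : (fun k => ∑ w, ((x k).jj (y k)).l.T.μ w *
      xz Q z k ((y k).l.p.π (((x k).l.am (y k).l).p2.π w)) ((y k).g (((x k).l.am (y k).l).p2.π w))) = zv Q z y := by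
    funext k
    exact sum_push ((x k).l.am (y k).l).p2 (fun ω => xz Q z k ((y k).l.p.π ω) ((y k).g ω))
  have e2 : (fun k => ∑ w, ((x k).jj (y k)).l.T.μ w *
      (xz Q z k ((x k).l.p.π (((x k).l.am (y k).l).p1.π w)) ((x k).g (((x k).l.am (y k).l).p1.π w)) + e)) =
      fun k => zv Q z x k + e := by
    funext k
    have e3 := sum_push ((x k).l.am (y k).l).p1 (fun ω => xz Q z k ((x k).l.p.π ω) ((x k).g ω))
    rw [Finset.sum_congr rfl fun w _ => mul_add _ _ _, Finset.sum_add_distrib, ← Finset.sum_mul,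
      Pool.Agent.Helper3.PR.sum_mu, one_mul]
    congr 1
  have key := ul_avg_le (fun k => ((x k).jj (y k)).l.T)
    (fun k w => xz Q z k ((x k).l.p.π (((x k).l.am (y k).l).p1.π w)) ((x k).g (((x k).l.am (y k).l).p1.π w)) + e)
    (fun k w => xz Q z k ((y k).l.p.π (((x k).l.am (y k).l).p2.π w)) ((y k).g (((x k).l.am (y k).l).p2.π w)))
    (fun k w => ∀ v, qf (((x k).jj (y k)).g' w) v ≤ 2 ^ (e * (S.F k).n) * qf (((x k).jj (y k)).g w) v)
    (fun _ => 0) tendsto_const_nhds C (hd e he) (by
      filter_upwards [hx 1 one_pos, hy 1 one_pos] with k b3 b4 w hw hE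
      have hn := (S.F k).pos
      have s1 := ((x k).l.am (y k).l).p1.supp w hw
      have s2 := ((x k).l.am (y k).l).p2.supp w hw
      have s3 := (x k).jj_supp (y k) w hw
      have c1 := (b3.2.1 _ s1).1
      have c2 := (b4.2.1 _ s2).1
      rw [← s3]
      set p := (x k).l.p.π (((x k).l.am (y k).l).p1.π w) with hp
      set g1 := (x k).g (((x k).l.am (y k).l).p1.π w) with hg1
      set g2 := (y k).g (((x k).l.am (y k).l).p2.π w) with hg2
      have h1 : Jz Q z k p g2 ≤ 2 ^ (e * (S.F k).n) * Jz Q z k p g1 :=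
        Jz_dom Q z k p (Real.one_le_rpow (by norm_num) (by positivity)) hE
      have h2 := one_le_Jz Q z k p (fun v => c1.psd.2 v)
      have h3 := one_le_Jz Q z k p (fun v => c2.psd.2 v)
      have h4 := Real.logb_le_logb_of_le (b := 2) (by norm_num) (by linarith) h1
      rw [Real.logb_mul (by positivity) (by linarith), Real.logb_rpow (by norm_num) (by norm_num)] at h4
      show Real.logb 2 (Jz Q z k p g2) / (2 * (S.F k).n) ≤ Real.logb 2 (Jz Q z k p g1) / (2 * (S.F k).n) + e + 0
      rw [add_zero, ← sub_le_iff_le_add', ← sub_div, div_le_iff₀ (by positivity)]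
      nlinarith) (by
      filter_upwards [hb] with k a w hw
      exact (a _ (((x k).l.am (y k).l).p2.supp w hw)).2) (by
      filter_upwards [hb'] with k a w hw
      have := (a _ (((x k).l.am (y k).l).p1.supp w hw)).1
      linarith) (by rw [e1]; exact hUy) (by rw [e2]; exact hUx.add (UB_const e))
  rw [e1, e2, ul_add hUx (UB_const e), ul_const] at key
  exact key


end

end Pool.Agent.Helper89.RAK
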