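import Pool.Agent.Helper89.RAK.Kz

/-! DERIVATIVE DOMINATION from self-domination: a form with the property `Slf R`, where `R` knows the cells of level one
of the point, dominates its derivative in the direction of a coordinate at the scale of its gradient at the point. -/

set_option autoImplicit false

namespace Pool.Agent.Helper89.RAK

open Finset Filter Topology Matrix Pool.Agent.Helper69.RK Pool.Agent.Helper31.EC Pool.Agent.Helper31.EC.Sp
open Pool.Agent.Helper40.EL Pool.Agent.Helper89.LX Pool.Agent.Helper3.LF Pool.Agent.Helper84.MT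
open Pool.Agent.Helper95.LF (PdM)
open Pool.Agent.Helper48.NS (Tm dd_eq)
open Pool.Agent.Helper89.RAT

noncomputable section

variable {S : Sp} {M D : ℕ} {κ : Type}

/-- the point rounded to the cell of level one -/
def rnd (Q : S.VV M) : S.VV M where
  v := fun k ω i => ⌊Q.v k ω i / S.dl 1 k⌋ * S.dl 1 k
  bd := by
    obtain ⟨K, hK, hb⟩ := Q.bd
    refine ⟨fun k => K k + 1, hK.add (S.Sub_const zero_le_one), ?_⟩
    filter_upwards [hb] with k hk ω hω i
    have hd := S.dl_pos 1 k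
    have hd1 := dl_one_le S k
    have h1 := Int.floor_le (Q.v k ω i / S.dl 1 k)
    have h2 := Int.lt_floor_add_one (Q.v k ω i / S.dl 1 k)
    rw [le_div_iff₀ hd] at h1
    rw [div_lt_iff₀ hd] at h2
    have h3 := abs_le.mp (hk ω hω i)
    rw [abs_le]
    constructor <;> nlinarith

theorem rnd_close (Q : S.VV M) (k : ℕ) (ω : (S.F k).Ω) (i : Fin M) : |(rnd Q).v k ω i - Q.v k ω i| ≤ S.dl 1 k := by
  have hd := S.dl_pos 1 k
  have h1 := Int.floor_le (Q.v k ω i / S.dl 1 k)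
  have h2 := Int.lt_floor_add_one (Q.v k ω i / S.dl 1 k)
  rw [le_div_iff₀ hd] at h1
  rw [div_lt_iff₀ hd] at h2
  show |(⌊Q.v k ω i / S.dl 1 k⌋ : ℝ) * S.dl 1 k - Q.v k ω i| ≤ _
  rw [abs_le]
  constructor <;> nlinarith

theorem rnd_cell (Q : S.VV M) (k : ℕ) {ω ω' : (S.F k).Ω} (h : Q.cellv 1 k ω = Q.cellv 1 k ω') :
    (rnd Q).v k ω = (rnd Q).v k ω' := by
  funext i
  have h1 : ⌊Q.v k ω i / S.dl 1 k⌋ = ⌊Q.v k ω' i / S.dl 1 k⌋ := congrFun h i
  show (⌊Q.v k ω i / S.dl 1 k⌋ : ℝ) * S.dl 1 k = (⌊Q.v k ω' i / S.dl 1 k⌋ : ℝ) * S.dl 1 k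
  rw [h1]

/-- the constant of the comparison -/
def cR (M D : ℕ) : ℝ := cQ M D * 2 ^ (2 * D)

theorem cR_one (M D : ℕ) : 1 ≤ cR M D :=
  one_le_mul_of_one_le_of_one_le (cQ_one M D) (one_le_pow₀ (by norm_num))

theorem Jz_cmp (P Q : S.VV M) (z : Fin M) (k : ℕ) (ω : (S.F k).Ω) (h : ∀ i, |P.v k ω i - Q.v k ω i| ≤ S.dl 1 k)
    {A : Matrix (Mon M D) (Mon M D) ℝ} (hA : PdM A) : Jz P z k ω A ≤ cR M D * Jz Q z k ω A := by
  have h1 := Jq_comp' A hA (S.dl 1 k) (S.dl 1 k) 2 (S.dl_pos 1 k) (S.dl_pos 1 k).le (by norm_num) (Q.v k ω) (P.v k ω)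
    (fun i => by
      have := h i
      linarith) (Pi.single z 1)
  rw [single_dv, single_dv] at h1
  have h2 := cR_one M D
  unfold Jz
  rw [mul_add, mul_one]
  exact add_le_add h2 h1

theorem Jz_rnd_le (Q : S.VV M) (z : Fin M) (k : ℕ) (ω : (S.F k).Ω) {A : Matrix (Mon M D) (Mon M D) ℝ} (hA : PdM A) :
    Jz (rnd Q) z k ω A ≤ cR M D * Jz Q z k ω A := Jz_cmp _ _ z k ω (rnd_close Q k ω) hA

theorem Jz_le_rnd (Q : S.VV M) (z : Fin M) (k : ℕ) (ω : (S.F k).Ω) {A : Matrix (Mon M D) (Mon M D) ℝ} (hA : PdM A) :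
    Jz Q z k ω A ≤ cR M D * Jz (rnd Q) z k ω A :=
  Jz_cmp _ _ z k ω (fun i => by
    rw [abs_sub_comm]
    exact rnd_close Q k ω i) hA

/-- A FORM DOMINATES ITS DERIVATIVE in the direction `z`, at the scale of its gradient at the point -/
theorem dom_z0 {A : κ → Part S} (Q : S.VV M) (z : Fin M) {x : ∀ k, FD (S.F k) (Mon M D)} (hx : (gaq Q D).Adf A x)
    {R : ∀ k, Setoid (S.F k).Ω} (hR : ∀ k, R k ≤ Setoid.ker (Q.cellv 1 k)) (hs : Slf (gaq Q D) R x)
    (e : ℝ) (he : 0 < e) :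
    Tendsto (fun k => (x k).l.T.pb (fun ω => ¬ ∀ v, qf ((x k).g ω) (Tm z *ᵥ v) ≤
      2 ^ (e * (S.F k).n) * Jz Q z k ((x k).l.p.π ω) ((x k).g ω) * qf ((x k).g ω) v)) UF (𝓝 0) := by
  classical
  set Φ := gaq Q D with hΦ
  set e₀ : ℝ := e / 4 with he₀
  have he0 : 0 < e₀ := by rw [he₀]; linarith
  obtain ⟨J, hJ⟩ := exists_nat_ge (5 / e₀)
  rw [div_le_iff₀ he0] at hJ
  have hcR := cR_one M D
  set j : ∀ k, (x k).l.T.Ω → ℕ := fun k ω => zcl (rnd Q) z x e₀ J k ω with hj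
  set lam : ∀ k, (x k).l.T.Ω → ℝ := fun k ω => 2 ^ (-(((j k ω : ℝ) + 1) * e₀ * (S.F k).n)) with hlam
  have hlam0 : ∀ k ω, 0 < lam k ω := fun k ω => by positivity
  set g2 : ∀ k, (x k).l.T.Ω → Matrix (Mon M D) (Mon M D) ℝ :=
    fun k ω => capd (Φ.cp k) (DZ z (lam k ω) ((x k).g ω)) with hg2
  obtain ⟨K, hK, hone⟩ := Φ.one
  -- the constant of the gradient
  have hcM : (0 : ℝ) ≤ M * nn M D * Cm M D ^ 2 := by
    have h1 := nn_one M D
    have h2 := Cm_one M D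
    positivity
  -- on the typical event the class is not truncated
  have hcl : ∀ᶠ k in UF, ∀ ω, (x k).l.T.μ ω ≠ 0 → Φ.φ k ((x k).l.p.π ω) ((x k).g ω) ≤ 2 ^ (1 * (S.F k).n) →
      Jz (rnd Q) z k ((x k).l.p.π ω) ((x k).g ω) ≤ 2 ^ (((j k ω : ℝ) + 1) * e₀ * (S.F k).n) ∧
      1 ≤ Jz (rnd Q) z k ((x k).l.p.π ω) ((x k).g ω) := by
    have hs1 := (S.Sub_const (show (0 : ℝ) ≤ 1 + M * nn M D * Cm M D ^ 2 by linarith)).eventually_le one_pos
    have hs2 := (S.Sub_const (show (0 : ℝ) ≤ cR M D by linarith)).eventually_le one_pos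
    filter_upwards [hx 1 one_pos, hs1, hs2] with k a b b2 ω hω hφ
    have hn := (S.F k).pos
    have hA := (a.2.1 ω hω).1
    have h1 := one_le_Jz (rnd Q) z k ((x k).l.p.π ω) (fun v => hA.psd.2 v)
    refine ⟨zcl_ge (rnd Q) z x he0 J k ω h1 ?_, h1⟩
    refine (Jz_rnd_le Q z k _ hA.pdM).trans ?_
    have h2 : phi (S.dl 1 k) ((x k).g ω) (Q.v k ((x k).l.p.π ω)) ≤ 2 ^ (1 * (S.F k).n) := hφ
    have h3 : (2 : ℝ) ^ (2 * (S.F k).n) * phi (S.dl 1 k) ((x k).g ω) (Q.v k ((x k).l.p.π ω)) ≤ 2 ^ (3 * (S.F k).n) := by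
      refine (mul_le_mul_of_nonneg_left h2 (by positivity)).trans (le_of_eq ?_)
      rw [← Real.rpow_add (by norm_num)]
      congr 1
      ring
    have h4 : (1 : ℝ) ≤ 2 ^ (3 * (S.F k).n) := Real.one_le_rpow (by norm_num) (by positivity)
    have h5 : Jz Q z k ((x k).l.p.π ω) ((x k).g ω) ≤ 2 ^ (4 * (S.F k).n) := by
      refine (Jz_le Q z k _ hA.pdM).trans ?_
      calc 1 + M * nn M D * Cm M D ^ 2 * (2 ^ (2 * (S.F k).n) * phi (S.dl 1 k) ((x k).g ω) (Q.v k ((x k).l.p.π ω)))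
          ≤ 2 ^ (3 * (S.F k).n) + M * nn M D * Cm M D ^ 2 * 2 ^ (3 * (S.F k).n) :=
            add_le_add h4 (mul_le_mul_of_nonneg_left h3 hcM)
        _ = (1 + M * nn M D * Cm M D ^ 2) * 2 ^ (3 * (S.F k).n) := by ring
        _ ≤ 2 ^ (1 * (S.F k).n) * 2 ^ (3 * (S.F k).n) := by
            apply mul_le_mul_of_nonneg_right _ (by positivity)
            linarith
        _ = 2 ^ (4 * (S.F k).n) := by
            rw [← Real.rpow_add (by norm_num)]
            congr 1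
            ring
    calc cR M D * Jz Q z k ((x k).l.p.π ω) ((x k).g ω) ≤ 2 ^ (1 * (S.F k).n) * 2 ^ (4 * (S.F k).n) := by
          apply mul_le_mul _ h5 _ (by positivity)
          · linarith
          · have := one_le_Jz Q z k ((x k).l.p.π ω) (fun v => hA.psd.2 v)
            linarith
      _ = 2 ^ (5 * (S.F k).n) := by
          rw [← Real.rpow_add (by norm_num)]
          congr 1
          ring
      _ ≤ _ := by
          apply Real.rpow_le_rpow_of_exponent_le (by norm_num)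
          nlinarith
  -- the size of the second form
  have hsz : ∀ᶠ k in UF, ∀ ω, (x k).l.T.μ ω ≠ 0 → Φ.φ k ((x k).l.p.π ω) ((x k).g ω) ≤ 2 ^ (1 * (S.F k).n) →
      Φ.φ k ((x k).l.p.π ω) (DZ z (lam k ω) ((x k).g ω)) ≤ K k + cR M D := by
    filter_upwards [hcl, hone, hx 1 one_pos] with k a b c ω hω hφ
    obtain ⟨h1, h2⟩ := a ω hω hφ
    have hA := (c.2.1 ω hω).1
    have h3 : Φ.φ k ((x k).l.p.π ω) (DZ z (lam k ω) ((x k).g ω)) = Φ.φ k ((x k).l.p.π ω) 1 +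
        lam k ω * Jq (S.dl 1 k) ((x k).g ω) (Q.v k ((x k).l.p.π ω)) z z := DZ_phi z _ _ _ _
    have h4 := b ((x k).l.p.π ω) ((x k).l.p.supp ω hω)
    have h5 : lam k ω * Jq (S.dl 1 k) ((x k).g ω) (Q.v k ((x k).l.p.π ω)) z z ≤ cR M D := by
      have e1 : lam k ω * 2 ^ (((j k ω : ℝ) + 1) * e₀ * (S.F k).n) = 1 := by
        rw [hlam]
        show (2 : ℝ) ^ _ * _ = 1
        rw [← Real.rpow_add (by norm_num)]
        simp
      have e2 := Jz_le_rnd Q z k ((x k).l.p.π ω) hA.pdM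
      have e3 : Jq (S.dl 1 k) ((x k).g ω) (Q.v k ((x k).l.p.π ω)) z z ≤
          cR M D * 2 ^ (((j k ω : ℝ) + 1) * e₀ * (S.F k).n) := by
        have e4 := mul_le_mul_of_nonneg_left h1 (show (0 : ℝ) ≤ cR M D by linarith)
        have e5 : Jz Q z k ((x k).l.p.π ω) ((x k).g ω) =
          1 + Jq (S.dl 1 k) ((x k).g ω) (Q.v k ((x k).l.p.π ω)) z z := rfl
        linarith
      refine (mul_le_mul_of_nonneg_left e3 (hlam0 k ω).le).trans (le_of_eq ?_)
      rw [mul_left_comm, e1, mul_one]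
    rw [h3]
    linarith
  have hK1 : S.Sub (fun k => K k + cR M D) := hK.add (S.Sub_const (by linarith))
  have hdom := hs j J (fun k ω => min_le_left _ _) (by
      intro k ω ω' a b c d r
      have h1 := rnd_cell Q k (hR k r)
      show min J _ = min J _
      have h2 := ((x k).meas ω ω' a b c d).1
      have h3 : Jz (rnd Q) z k ((x k).l.p.π ω) ((x k).g ω) = Jz (rnd Q) z k ((x k).l.p.π ω') ((x k).g ω') := by
        unfold Jz
        rw [h1, h2]
      rw [h3]) g2 (by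
      intro k ω ω' a b c d hjj
      show capd (Φ.cp k) (DZ z (lam k ω) ((x k).g ω)) = capd (Φ.cp k) (DZ z (lam k ω') ((x k).g ω'))
      rw [((x k).meas ω ω' a b c d).1]
      have h1 : lam k ω = lam k ω' := by
        show (2 : ℝ) ^ (-(((j k ω : ℝ) + 1) * e₀ * (S.F k).n)) = 2 ^ (-(((j k ω' : ℝ) + 1) * e₀ * (S.F k).n))
        rw [hjj]
      rw [h1]) (Eventually.of_forall fun k ω _ => capd_Cpd (Φ.one_le_cp k) _) (by
      intro η hη
      have hm : 0 < min η 1 := lt_min hη one_pos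
      filter_upwards [hx _ hm, hsz, hone, hK1.eventually_le hη, hK1.1] with k a b c d d'
      have hn := (S.F k).pos
      refine le_trans (FSp.pb_mono _ ?_) (a.2.2.1.trans (min_le_left _ _))
      intro ω hω h1 h2
      apply h1
      have h3 : Φ.φ k ((x k).l.p.π ω) ((x k).g ω) ≤ 2 ^ (1 * (S.F k).n) := by
        refine h2.trans (Real.rpow_le_rpow_of_exponent_le (by norm_num) ?_)
        exact mul_le_mul_of_nonneg_right (min_le_right _ _) hn.le
      have h4 := b ω hω h3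
      have h5 := c ((x k).l.p.π ω) ((x k).l.p.supp ω hω)
      show Φ.φ k ((x k).l.p.π ω) (capd (Φ.cp k) (DZ z (lam k ω) ((x k).g ω))) ≤ _
      unfold capd
      split_ifs
      · linarith
      · linarith) (e / 4) (by linarith)
  -- the cap is not reached
  have hcap : Tendsto (fun k => (x k).l.T.pb (fun ω => ¬ Φ.φ k ((x k).l.p.π ω) ((x k).g ω) ≤ 2 ^ (1 * (S.F k).n)))
      UF (𝓝 0) := by
    rw [Metric.tendsto_nhds]
    intro ε hε
    have hm : 0 < min (ε / 2) 1 := lt_min (by linarith) one_pos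
    filter_upwards [hx _ hm] with k a
    have hn := (S.F k).pos
    rw [Real.dist_eq, sub_zero, abs_of_nonneg ((x k).l.T.pb_nonneg _)]
    have h1 : (x k).l.T.pb (fun ω => ¬ Φ.φ k ((x k).l.p.π ω) ((x k).g ω) ≤ 2 ^ (1 * (S.F k).n)) ≤ min (ε / 2) 1 := by
      refine le_trans (FSp.pb_mono _ ?_) a.2.2.1
      intro ω _ h2 h3
      apply h2
      refine h3.trans (Real.rpow_le_rpow_of_exponent_le (by norm_num) ?_)
      exact mul_le_mul_of_nonneg_right (min_le_right _ _) hn.le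
    have h2 : min (ε / 2) 1 ≤ ε / 2 := min_le_left _ _
    linarith
  have hsum := hdom.add hcap
  rw [add_zero] at hsum
  refine tendsto_of_tendsto_of_tendsto_of_le_of_le' tendsto_const_nhds hsum
    (Eventually.of_forall fun k => (x k).l.T.pb_nonneg _) ?_
  filter_upwards [hsz, hcl, cpd_ev (Φ := Φ) (fun k => K k + cR M D) hK1, hx 1 one_pos,
    (S.Sub_const (show (0 : ℝ) ≤ cR M D by linarith)).eventually_le he0] with k a b c d d2
  have hn := (S.F k).pos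
  refine le_trans (FSp.pb_mono _ ?_) (pb_or _ _ _)
  intro ω hω h1
  by_contra h2
  push Not at h2
  obtain ⟨h2, h3⟩ := h2
  apply h1
  intro v
  have hA := (d.2.1 ω hω).1
  have h4 := a ω hω h3
  obtain ⟨h5, h6⟩ := b ω hω h3
  have h7 := c ((x k).l.p.π ω) ((x k).l.p.supp ω hω) (DZ z (lam k ω) ((x k).g ω)) (DZ_symm z _ hA.1)
    (DZ_ge z (hlam0 k ω).le fun v => hA.psd.2 v) h4
  have h8 : g2 k ω = DZ z (lam k ω) ((x k).g ω) := capd_eq h7
  have h9 := h2 v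
  rw [h8, DZ_qf] at h9
  have h10 := dot_self_nonneg v
  have h11 : lam k ω * qf ((x k).g ω) (Tm z *ᵥ v) ≤ 2 ^ (e / 4 * (S.F k).n) * qf ((x k).g ω) v := by linarith
  have h12 := zcl_le (rnd Q) z x he0 J k ω h6
  have h13 : 0 ≤ qf ((x k).g ω) v := hA.psd.2 v
  have h14 := Jz_rnd_le Q z k ((x k).l.p.π ω) hA.pdM
  have e2 : qf ((x k).g ω) (Tm z *ᵥ v) = 2 ^ (((j k ω : ℝ) + 1) * e₀ * (S.F k).n) *
      (lam k ω * qf ((x k).g ω) (Tm z *ᵥ v)) := by
    rw [← mul_assoc]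
    have : (2 : ℝ) ^ (((j k ω : ℝ) + 1) * e₀ * (S.F k).n) * lam k ω = 1 := by
      show (2 : ℝ) ^ (((j k ω : ℝ) + 1) * e₀ * (S.F k).n) * 2 ^ (-(((j k ω : ℝ) + 1) * e₀ * (S.F k).n)) = 1
      rw [← Real.rpow_add (by norm_num)]
      simp
    rw [this, one_mul]
  rw [e2]
  refine (mul_le_mul_of_nonneg_left h11 (by positivity)).trans ?_
  have e3 : (2 : ℝ) ^ (((j k ω : ℝ) + 1) * e₀ * (S.F k).n) = 2 ^ ((j k ω : ℝ) * e₀ * (S.F k).n) *
      2 ^ (e₀ * (S.F k).n) := by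
    rw [← Real.rpow_add (by norm_num)]
    congr 1
    ring
  have e4 : cR M D * (2 : ℝ) ^ (e₀ * (S.F k).n) * 2 ^ (e / 4 * (S.F k).n) ≤ 2 ^ (e * (S.F k).n) := by
    have e5 : cR M D ≤ 2 ^ (e₀ * (S.F k).n) := by linarith
    calc cR M D * (2 : ℝ) ^ (e₀ * (S.F k).n) * 2 ^ (e / 4 * (S.F k).n)
        ≤ 2 ^ (e₀ * (S.F k).n) * 2 ^ (e₀ * (S.F k).n) * 2 ^ (e / 4 * (S.F k).n) := by
          apply mul_le_mul_of_nonneg_right _ (by positivity)
          exact mul_le_mul_of_nonneg_right e5 (by positivity)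
      _ ≤ _ := by
          rw [← Real.rpow_add (by norm_num), ← Real.rpow_add (by norm_num)]
          apply Real.rpow_le_rpow_of_exponent_le (by norm_num)
          rw [he₀]
          nlinarith
  rw [e3]
  have hJ0 : 0 ≤ Jz Q z k ((x k).l.p.π ω) ((x k).g ω) := by
    have := one_le_Jz Q z k ((x k).l.p.π ω) (fun v => hA.psd.2 v)
    linarith
  calc 2 ^ ((j k ω : ℝ) * e₀ * (S.F k).n) * 2 ^ (e₀ * (S.F k).n) *
        (2 ^ (e / 4 * (S.F k).n) * qf ((x k).g ω) v)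
      = 2 ^ ((j k ω : ℝ) * e₀ * (S.F k).n) * (2 ^ (e₀ * (S.F k).n) * 2 ^ (e / 4 * (S.F k).n)) *
        qf ((x k).g ω) v := by ring
    _ ≤ (cR M D * Jz Q z k ((x k).l.p.π ω) ((x k).g ω)) * (2 ^ (e₀ * (S.F k).n) * 2 ^ (e / 4 * (S.F k).n)) *
        qf ((x k).g ω) v := by
        apply mul_le_mul_of_nonneg_right _ h13
        exact mul_le_mul_of_nonneg_right (h12.trans h14) (by positivity)
    _ = Jz Q z k ((x k).l.p.π ω) ((x k).g ω) * (cR M D * 2 ^ (e₀ * (S.F k).n) * 2 ^ (e / 4 * (S.F k).n)) *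
        qf ((x k).g ω) v := by ring
    _ ≤ Jz Q z k ((x k).l.p.π ω) ((x k).g ω) * 2 ^ (e * (S.F k).n) * qf ((x k).g ω) v := by
        apply mul_le_mul_of_nonneg_right _ h13
        exact mul_le_mul_of_nonneg_left e4 hJ0
    _ = _ := by ring

end

end Pool.Agent.Helper89.RAK
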