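import Pool.Agent.Helper89.RAK.Cmp
import Pool.Agent.Helper41.VC.Main

/-! THE VOLUME AND THE PROJECTION, class-free: let `P` be the point without its coordinate `j`, `y` a form for `P`. Its pull
back `zf1` is a form for the point. If the form `x` dominates `zf1`, then `vol x ≤ 1 - zx x + vol y`. -/

set_option autoImplicit false

namespace Pool.Agent.Helper89.RAK

open Finset Filter Topology Matrix MeasureTheory Pool.Agent.Helper69.RK Pool.Agent.Helper31.EC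
open Pool.Agent.Helper31.EC.Sp
open Pool.Agent.Helper40.EL Pool.Agent.Helper89.LX Pool.Agent.Helper3.LF Pool.Agent.Helper84.MT
open Pool.Agent.Helper95.LF
open Pool.Agent.Helper14.MC (adf_sub gx vx vol_eq vx_UB vx_nonneg gexq gexq_bd gexq_nonneg oQ osp_n adf_cap)
open Pool.Agent.Helper42.NS (osp osp_dl)
open Pool.Agent.Helper59.EV (sum_split_le)
open Pool.Agent.Helper41.DZ (Lz)
open Pool.Agent.Helper41.VC (hf hf_phi hf_symm hf_ge hC hC_nonneg fj log_pt xj xj_bd cf cf_tendsto)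
open Pool.Agent.Helper89.RAT (zx zv xz zv_UB)

noncomputable section

variable {S : Sp} {d D : ℕ} {κ κ' : Type}

section fm

variable (Q : S.VV (d + 1)) (j : Fin (d + 1)) (y : ∀ k, FD (S.F k) (Mon d D))

/-- the pull back of the form -/
def zg1 (k : ℕ) (ω : (y k).l.T.Ω) : Matrix (Mon (d + 1) D) (Mon (d + 1) D) ℝ := hf D j (S.dl 1 k) ((y k).g ω)

/-- the label with the pull back of the form -/
def zf1 : ∀ k, FD (S.F k) (Mon (d + 1) D) := fun k =>
  mkFD (y k).l (fun ω => capd ((gaq Q D).cp k) (zg1 j y k ω)) (by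
    intro ω ω' a a' b c
    have e1 : (y k).g ω = (y k).g ω' := ((y k).meas ω ω' a a' b c).1
    unfold zg1
    rw [e1])

theorem zf1_l : (fun k => (zf1 Q j y k).l) = fun k => (y k).l := rfl

end fm

variable {Q : S.VV (d + 1)} {P : S.VV d} {j : Fin (d + 1)} {y : ∀ k, FD (S.F k) (Mon d D)}

/-- where the form is below the cap, and its size -/
theorem zf1_good {B : κ → Part S} (hP : ∀ k ω, P.v k ω = fj j (Q.v k ω)) (hy : (gaq P D).Adf B y)
    {K : ℕ → ℝ} (hK : S.Sub K) : ∃ L : ℕ → ℝ, S.Sub L ∧ ∀ᶠ k in UF, ∀ ω, (y k).l.T.μ ω ≠ 0 →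
      (gaq P D).φ k ((y k).l.p.π ω) ((y k).g ω) ≤ K k →
      (zf1 Q j y k).g ω = zg1 j y k ω ∧
      (gaq Q D).φ k ((zf1 Q j y k).l.p.π ω) ((zf1 Q j y k).g ω) ≤ L k := by
  obtain ⟨K0, hK0, hone⟩ := (gaq Q D).one
  have hL : S.Sub (fun k => K0 k + hC d D * K k) := hK0.add ((S.Sub_const (hC_nonneg d D)).mul hK)
  refine ⟨_, hL, ?_⟩
  filter_upwards [hone, (gaq Q D).cap, hL.eventually_le one_pos, hy 1 one_pos] with k k2 k3 k4 k5 ω hω hφ
  have hB := (k5.2.1 ω hω).1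
  have hBp : PdM ((y k).g ω) := hB.pdM
  have hsup : (S.F k).μ ((y k).l.p.π ω) ≠ 0 := (y k).l.p.supp ω hω
  have e1 : (gaq P D).φ k ((y k).l.p.π ω) ((y k).g ω) =
      phi (S.dl 1 k) ((y k).g ω) (fj j (Q.v k ((y k).l.p.π ω))) := by
    show phi (S.dl 1 k) ((y k).g ω) (P.v k ((y k).l.p.π ω)) = _
    rw [hP]
  rw [e1] at hφ
  have h2 := hf_phi j (S.dl 1 k) (S.dl 1 k) (S.dl_pos 1 k) (S.dl_pos 1 k).le
    le_rfl hBp (Q.v k ((y k).l.p.π ω))
  have h3 : phi (S.dl 1 k) (1 : Matrix (Mon (d + 1) D) (Mon (d + 1) D) ℝ) (Q.v k ((y k).l.p.π ω)) ≤ K0 k :=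
    k2 _ hsup
  have h4 : phi (S.dl 1 k) (zg1 j y k ω) (Q.v k ((y k).l.p.π ω)) ≤ K0 k + hC d D * K k := by
    refine h2.trans (add_le_add h3 (mul_le_mul_of_nonneg_left hφ (hC_nonneg d D)))
  have hzs : (zg1 j y k ω).IsSymm := hf_symm j _ hBp.1
  have hzg : ∀ v, v ⬝ᵥ v ≤ v ⬝ᵥ (zg1 j y k ω *ᵥ v) := hf_ge j _ hBp.nonneg
  have h5 : Cpd ((gaq Q D).cp k) (zg1 j y k ω) := by
    refine ⟨hzs, hzg, fun v => ?_⟩
    refine (k3 _ hsup _ ⟨hzs, fun v hv => (self_pos hv).trans_le (hzg v)⟩ v).trans ?_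
    apply mul_le_mul_of_nonneg_right _ (dot_self_nonneg v)
    unfold Gau.cp
    rw [add_mul, Real.rpow_add (by norm_num)]
    apply mul_le_mul_of_nonneg_left _ (by positivity)
    have g3 : (gaq Q D).φ k ((y k).l.p.π ω) (zg1 j y k ω) ≤ K0 k + hC d D * K k := h4
    linarith
  have h6 : (zf1 Q j y k).g ω = zg1 j y k ω := capd_eq h5
  exact ⟨h6, by rw [h6]; exact h4⟩

/-- THE PULL BACK IS ADMISSIBLE -/
theorem zf1_adf [Finite κ'] {B : κ → Part S} {A : κ' → Part S} (hP : ∀ k ω, P.v k ω = fj j (Q.v k ω))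
    (hy : (gaq P D).Adf B y) (hl : (lb y).DMf A) : (gaq Q D).Adf A (zf1 Q j y) := by
  obtain ⟨K, hK, hT⟩ := adf_sub hy
  obtain ⟨L, hL, hb⟩ := zf1_good hP hy hK
  have hT' : Tendsto (fun k => (y k).l.T.pb (fun ω => ¬ (gaq P D).φ k ((y k).l.p.π ω) ((y k).g ω) ≤ K k)) UF (𝓝 0) := hT
  intro η hη
  have a1 := leak_evf hl hη
  filter_upwards [a1, hb, hT'.eventually (gt_mem_nhds hη), hL.eventually_le hη] with k b1 b2 b3 b4
  have hp : (y k).l.T.pb (fun ω => ¬ (gaq Q D).φ k ((zf1 Q j y k).l.p.π ω) ((zf1 Q j y k).g ω) ≤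
      2 ^ (η * (S.F k).n)) ≤ η := by
    refine le_trans (FSp.pb_mono _ ?_) b3.le
    intro ω hω h2 h3
    apply h2
    have h4 := (b2 ω hω h3).2
    linarith
  exact ⟨b1, fun ω _ => ⟨capd_Cpd ((gaq Q D).one_le_cp k) _, capd_Cpd ((gaq Q D).one_le_cp k) _⟩, hp, hp⟩

/-- THE INEQUALITY OF THE EXPONENTS -/
theorem ul_prj {A : κ' → Part S} {B : κ → Part S} {x : ∀ k, FD (S.F k) (Mon (d + 1) D)}
    (hP : ∀ k ω, P.v k ω = fj j (Q.v k ω))
    (hx : (gaq Q D).Adf A x) (hy : (gaq P D).Adf B y) (hd : DomJ x (zf1 Q j y)) :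
    zx Q j x + ul (vx P y) ≤ ul (vx Q x) := by
  classical
  have hUX := zv_UB j hx
  have hUx := vx_UB hx
  have hUy := vx_UB hy
  obtain ⟨K, hK, hT⟩ := adf_sub hy
  have hT' : Tendsto (fun k => (y k).l.T.pb (fun ω => ¬ (gaq P D).φ k ((y k).l.p.π ω) ((y k).g ω) ≤ K k)) UF (𝓝 0) := hT
  obtain ⟨L, hL, hb⟩ := zf1_good hP hy hK
  set C : ℝ := (((gaq P D).C + 1) + 3) * d with hC
  have hC0 : 0 ≤ C := by
    have := (gaq P D).C0
    positivity
  have hbd := gexq_bd (oQ (lb y) P) _ ((gaq P D).C + 1)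
    (by linarith [(gaq P D).C0]) (adf_cap hy)
  suffices h : ∀ e : ℝ, 0 < e → zx Q j x + ul (vx P y) ≤ ul (vx Q x) + e * d by
    apply le_of_forall_pos_le_add
    intro ε hε
    have h3 := h (ε / (d + 1)) (by positivity)
    have h4 : ε / (d + 1) * d ≤ ε := by
      rw [div_mul_eq_mul_div, div_le_iff₀ (by positivity)]
      nlinarith
    linarith
  intro e he
  have hdom := hd e he
  have hle : ∀ᶠ k in UF, zv Q j x k + vx P y k ≤
      vx Q x k + cf d / (2 * (S.F k).n) + (e * d + C * ((((x k).jj (zf1 Q j y k)).l.T.pb (fun w =>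
      ¬ ∀ v, qf (((x k).jj (zf1 Q j y k)).g' w) v ≤
        2 ^ (e * (S.F k).n) * qf (((x k).jj (zf1 Q j y k)).g w) v)) +
      (y k).l.T.pb (fun ω => ¬ (gaq P D).φ k ((y k).l.p.π ω) ((y k).g ω) ≤ K k))) := by
    filter_upwards [hbd, hx 1 one_pos, hy 1 one_pos, hb] with k b1 b3 b4 b5
    have hn := (S.F k).pos
    set J := (x k).l.am (zf1 Q j y k).l with hJ
    have e1 : vx Q x k = ∑ w, J.sp.μ w * gx Q k ((x k).l.p.π (J.p1.π w)) ((x k).g (J.p1.π w)) :=
      (sum_push J.p1 (fun ω => gx Q k ((x k).l.p.π ω) ((x k).g ω))).symm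
    have e2 : zv Q j x k = ∑ w, J.sp.μ w * xj Q j k ((x k).l.p.π (J.p1.π w)) ((x k).g (J.p1.π w)) :=
      (sum_push J.p1 (fun ω => xj Q j k ((x k).l.p.π ω) ((x k).g ω))).symm
    have e3 : vx P y k =
        ∑ w, J.sp.μ w * gx P k ((y k).l.p.π (J.p2.π w)) ((y k).g (J.p2.π w)) :=
      (sum_push J.p2 (fun ω => gx P k ((y k).l.p.π ω) ((y k).g ω))).symm
    have h2 := sum_split_le (F := J.sp)
      (fun w => xj Q j k ((x k).l.p.π (J.p1.π w)) ((x k).g (J.p1.π w)) +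
        gx P k ((y k).l.p.π (J.p2.π w)) ((y k).g (J.p2.π w)) -
        gx Q k ((x k).l.p.π (J.p1.π w)) ((x k).g (J.p1.π w)) - cf d / (2 * (S.F k).n))
      (fun w => (∀ v, qf (((x k).jj (zf1 Q j y k)).g' w) v ≤
        2 ^ (e * (S.F k).n) * qf (((x k).jj (zf1 Q j y k)).g w) v) ∧
        (gaq P D).φ k ((y k).l.p.π (J.p2.π w)) ((y k).g (J.p2.π w)) ≤ K k)
      (e * d) C (by positivity) hC0 (by
        intro w hw hE
        have s1 := J.p1.supp w hw
        have s2 : (y k).l.T.μ (J.p2.π w) ≠ 0 := J.p2.supp w hw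
        have s3 : (x k).l.p.π (J.p1.π w) = (y k).l.p.π (J.p2.π w) := (x k).jj_supp (zf1 Q j y k) w hw
        have c1 := (b3.2.1 _ s1).1
        have c2 := (b4.2.1 _ s2).1
        have c3 := (b5 _ s2 hE.2).1
        have hE1 := hE.1
        have c4 : ∀ v, qf (hf D j (S.dl 1 k) ((y k).g (J.p2.π w))) v ≤
            2 ^ (e * (S.F k).n) * qf ((x k).g (J.p1.π w)) v := by
          intro v
          have c5 := hE1 v
          have c6 : ((x k).jj (zf1 Q j y k)).g' w = zg1 j y k (J.p2.π w) := c3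
          rw [c6] at c5
          exact c5
        have h6 := log_pt c1.pdM c2.pdM j (S.dl 1 k) (S.dl 1 k)
          (Q.v k ((x k).l.p.π (J.p1.π w))) (e * (S.F k).n) (by positivity) c4
        have e4 : gx P k ((y k).l.p.π (J.p2.π w)) ((y k).g (J.p2.π w)) =
            Real.logb 2 (GQ (S.dl 1 k) ((y k).g (J.p2.π w))
              (fj j (Q.v k ((x k).l.p.π (J.p1.π w))))) / (2 * (S.F k).n) := by
          unfold gx
          rw [s3, hP]
        show xj Q j k ((x k).l.p.π (J.p1.π w)) ((x k).g (J.p1.π w)) +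
          gx P k ((y k).l.p.π (J.p2.π w)) ((y k).g (J.p2.π w)) -
          gx Q k ((x k).l.p.π (J.p1.π w)) ((x k).g (J.p1.π w)) - cf d / (2 * (S.F k).n) ≤ e * d
        rw [e4]
        unfold xj gx
        rw [← add_div, ← sub_div, ← sub_div, div_le_iff₀ (by positivity)]
        have h7 : 0 ≤ (d : ℝ) * (e * (S.F k).n) := by positivity
        linarith) (by
        intro w hw
        have s1 := J.p1.supp w hw
        have s2 : (y k).l.T.μ (J.p2.π w) ≠ 0 := J.p2.supp w hw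
        have c1 := (b3.2.1 _ s1).1
        have d1 := b1 _ s2
        have d2 := (xj_bd Q j k ((x k).l.p.π (J.p1.π w)) c1.pdM).2
        have f1 : gexq (oQ (lb y) P) (fun k (ω : (y k).l.T.Ω) => (y k).g ω) k (J.p2.π w) =
            gx P k ((y k).l.p.π (J.p2.π w)) ((y k).g (J.p2.π w)) := by
          unfold gexq gx
          rw [osp_dl, osp_n]
          rfl
        rw [f1] at d1
        linarith)
    have e5 : ∑ w, J.sp.μ w * (xj Q j k ((x k).l.p.π (J.p1.π w)) ((x k).g (J.p1.π w)) +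
        gx P k ((y k).l.p.π (J.p2.π w)) ((y k).g (J.p2.π w)) -
        gx Q k ((x k).l.p.π (J.p1.π w)) ((x k).g (J.p1.π w)) - cf d / (2 * (S.F k).n)) =
        zv Q j x k + vx P y k - vx Q x k - cf d / (2 * (S.F k).n) := by
      have e6 : ∑ w, J.sp.μ w = 1 := J.sp.ms
      rw [e1, e2, e3]
      have e7 : cf d / (2 * (S.F k).n) = ∑ w, J.sp.μ w * (cf d / (2 * (S.F k).n)) := by
        rw [← Finset.sum_mul, e6, one_mul]
      conv_rhs => rw [e7]
      rw [← Finset.sum_add_distrib, ← Finset.sum_sub_distrib, ← Finset.sum_sub_distrib]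
      exact Finset.sum_congr rfl fun w _ => by ring
    beta_reduce at h2
    rw [e5] at h2
    have h8 : J.sp.pb (fun w => ¬ ((∀ v, qf (((x k).jj (zf1 Q j y k)).g' w) v ≤
        2 ^ (e * (S.F k).n) * qf (((x k).jj (zf1 Q j y k)).g w) v) ∧
        (gaq P D).φ k ((y k).l.p.π (J.p2.π w)) ((y k).g (J.p2.π w)) ≤ K k)) ≤
        (((x k).jj (zf1 Q j y k)).l.T.pb (fun w =>
      ¬ ∀ v, qf (((x k).jj (zf1 Q j y k)).g' w) v ≤
        2 ^ (e * (S.F k).n) * qf (((x k).jj (zf1 Q j y k)).g w) v)) +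
      (y k).l.T.pb (fun ω => ¬ (gaq P D).φ k ((y k).l.p.π ω) ((y k).g ω) ≤ K k) := by
      have h9 : J.sp.pb (fun w => ¬ (gaq P D).φ k ((y k).l.p.π (J.p2.π w))
          ((y k).g (J.p2.π w)) ≤ K k) =
          (y k).l.T.pb (fun ω => ¬ (gaq P D).φ k ((y k).l.p.π ω) ((y k).g ω) ≤ K k) :=
        pb_push J.p2 (fun ω => ¬ (gaq P D).φ k ((y k).l.p.π ω) ((y k).g ω) ≤ K k)
      rw [← h9]
      refine le_trans (FSp.pb_mono _ (E' := fun w : J.sp.Ω => (¬ ∀ v, qf (((x k).jj (zf1 Q j y k)).g' w) v ≤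
        2 ^ (e * (S.F k).n) * qf (((x k).jj (zf1 Q j y k)).g w) v) ∨
        ¬ (gaq P D).φ k ((y k).l.p.π (J.p2.π w)) ((y k).g (J.p2.π w)) ≤ K k) ?_) (pb_or _ _ _)
      intro w _ h10
      by_contra hc
      rw [not_or, not_not, not_not] at hc
      exact h10 hc
    have h11 := mul_le_mul_of_nonneg_left h8 hC0
    have h12 : zv Q j x k + vx P y k - vx Q x k - cf d / (2 * (S.F k).n) ≤
        e * d + C * J.sp.pb (fun w => ¬ ((∀ v, qf (((x k).jj (zf1 Q j y k)).g' w) v ≤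
        2 ^ (e * (S.F k).n) * qf (((x k).jj (zf1 Q j y k)).g w) v) ∧
        (gaq P D).φ k ((y k).l.p.π (J.p2.π w)) ((y k).g (J.p2.π w)) ≤ K k)) := h2
    linarith
  have t1 := (ul_tendsto hUX).add (ul_tendsto hUy)
  have t2 := ((ul_tendsto hUx).add (cf_tendsto S d)).add (((hdom.add hT').const_mul C).const_add (e * d))
  rw [add_zero, add_zero, mul_zero, add_zero] at t2
  exact le_of_tendsto_of_tendsto t1 t2 hle

/-- **THE VOLUME AND THE PROJECTION** -/
theorem vol_prj {A : κ' → Part S} {B : κ → Part S} {x : ∀ k, FD (S.F k) (Mon (d + 1) D)}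
    (hP : ∀ k ω, P.v k ω = fj j (Q.v k ω))
    (hx : (gaq Q D).Adf A x) (hy : (gaq P D).Adf B y) (hd : DomJ x (zf1 Q j y)) :
    vol Q D x ≤ 1 - zx Q j x + vol P D y := by
  have h1 := ul_prj hP hx hy hd
  rw [vol_eq, vol_eq]
  push_cast
  linarith

end

end Pool.Agent.Helper89.RAK
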