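import Pool.Agent.Helper89.RAK.Dmz
import Pool.Agent.Helper4.VZ.Top
import Pool.Agent.Helper89.RAT.Exp

/-! VOLZ from derivative domination (class-free): `h(P_1, z_b | κ) + 1 - E max(η_z, b) ≤ vol` for every admissible form
which dominates its derivative in the direction `z`. -/

set_option autoImplicit false

namespace Pool.Agent.Helper89.RAK

open Finset Filter Topology Matrix Pool.Agent.Helper69.RK Pool.Agent.Helper31.EC Pool.Agent.Helper31.EC.Sp
open Pool.Agent.Helper40.EL Pool.Agent.Helper89.LX Pool.Agent.Helper3.LF Pool.Agent.Helper84.MT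
open Pool.Agent.Helper95.LF
open Pool.Agent.Helper42.NS (osp u1 u1_dg u1_h osp_dl)
open Pool.Agent.Helper14.MC
open Pool.Agent.Helper36.AM (cel2)
open Pool.Agent.Helper89.RAT (Jz one_le_Jz single_dv Tm_pol)
open Pool.Agent.Helper4.VZ (sgl sgl_Jq je ee je_pow je_one_le cz cz_UB CNT_vz Dmv rt_osp cel_le cel2_h zx_ee)

noncomputable section

variable {S : Sp} {M D : ℕ} {κ : Type}

/-- two descriptions of the derivative -/
theorem Tm_eq (z : Fin M) : Pool.Agent.Helper4.VZ.Tm M D (sgl z) = Pool.Agent.Helper48.NS.Tm z := by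
  funext a
  apply Pool.Agent.Helper26.MZ.pol_inj
  have h1 : pol (Pool.Agent.Helper4.VZ.Tm M D (sgl z) a) = dir (sgl z) a.mon :=
    Pool.Agent.Helper36.AM.pol_cfs (D := D) (dir (sgl z) a.mon) (dir_deg (sgl z) _ (mon_deg a))
  rw [h1]
  refine Eq.trans ?_ (Tm_pol z a)
  unfold dir sgl
  rw [Finset.sum_eq_single z]
  · rw [Pi.single_eq_same, MvPolynomial.C_1, one_mul]
  · intro b _ hb
    rw [Pi.single_eq_of_ne hb, MvPolynomial.C_0, zero_mul]
  · intro h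
    exact absurd (Finset.mem_univ z) h

/-- derivative domination at the scale of the gradient at the point -/
def Dmz (Q : S.VV M) (z : Fin M) (x : ∀ k, FD (S.F k) (Mon M D)) : Prop := ∀ e : ℝ, 0 < e →
  Tendsto (fun k => (x k).l.T.pb (fun ω => ¬ ∀ v, qf ((x k).g ω) (Pool.Agent.Helper48.NS.Tm z *ᵥ v) ≤
      2 ^ (e * (S.F k).n) * Jz Q z k ((x k).l.p.π ω) ((x k).g ω) * qf ((x k).g ω) v)) UF (𝓝 0)

theorem Slf.dmz {A : κ → Part S} {Q : S.VV M} {x : ∀ k, FD (S.F k) (Mon M D)} {R : ∀ k, Setoid (S.F k).Ω}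
    (hs : Slf (gaq Q D) R x) (hx : (gaq Q D).Adf A x) (hR : ∀ k, R k ≤ Setoid.ker (Q.cellv 1 k)) (z : Fin M) :
    Dmz Q z x := fun e he => dom_z0 Q z hx hR hs e he

theorem je_Jz (Q : S.VV M) (z : Fin M) (x : ∀ k, FD (S.F k) (Mon M D)) (k : ℕ) (ω : (x k).l.T.Ω) :
    je Q x (fun _ _ => sgl z) k ω = Jz Q z k ((x k).l.p.π ω) ((x k).g ω) := by
  unfold je Jz
  rw [sgl_Jq]

/-- in the form of the counting lemma -/
theorem Dmz.typ {A : κ → Part S} {Q : S.VV M} {z : Fin M} {x : ∀ k, FD (S.F k) (Mon M D)} (h : Dmz Q z x)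
    (hx : (gaq Q D).Adf A x) (ε : ℝ) (hε : 0 < ε) : Sp.Typ (S := (lb x).sp) (fun k (ω : (x k).l.T.Ω) =>
      Dmv ((x k).g ω) (sgl z) (2 ^ ((ee Q x (fun _ _ => sgl z) k ω + ε) * (S.F k).n))) := by
  have h1 : Sp.Typ (S := (lb x).sp) (fun k (ω : (x k).l.T.Ω) => ∀ v, qf ((x k).g ω)
      (Pool.Agent.Helper48.NS.Tm z *ᵥ v) ≤
      2 ^ (2 * ε * (S.F k).n) * Jz Q z k ((x k).l.p.π ω) ((x k).g ω) * qf ((x k).g ω) v) := h (2 * ε) (by linarith)
  refine typ_mono h1 ?_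
  filter_upwards [je_one_le hx] with k a ω hω h2 v
  have hn := (S.F k).pos
  have h3 := je_pow (Q := Q) (x := x) (fun _ _ => sgl z) k ω (a ω hω _)
  have h4 := h2 v
  rw [← je_Jz, ← h3] at h4
  rw [Tm_eq]
  refine h4.trans (le_of_eq ?_)
  have e1 : ((2 : ℝ) ^ ((ee Q x (fun _ _ => sgl z) k ω + ε) * (S.F k).n)) ^ 2 =
      2 ^ (2 * ε * (S.F k).n) * 2 ^ (2 * ee Q x (fun _ _ => sgl z) k ω * (S.F k).n) := by
    rw [← Real.rpow_natCast, ← Real.rpow_mul (by norm_num), ← Real.rpow_add (by norm_num)]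
    congr 1
    push_cast
    ring
  rw [e1]
  rfl

/-- VOLZ for the cells `(P_1, z_b)`, class-free -/
theorem volz_cz0 {A : κ → Part S} (hD : 1 ≤ D) {Q : S.VV M} {x : ∀ k, FD (S.F k) (Mon M D)}
    (hx : (gaq Q D).Adf A x) (z : Fin M) (hz : Dmz Q z x) (b : ℝ) (hb : 0 ≤ b)
    (hb1 : b ≤ 1) : ul ((osp (lb x)).rt (fun k => Setoid.ker (cz (oQ (lb x) Q) z b k)) (osp (lb x)).tr) + 1 ≤
      vol Q D x + ul (fun k => ∑ ω, (x k).l.T.μ ω * max (Pool.Agent.Helper4.VZ.zx Q x z k ω) b) := by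
  set l : Lab S := lb x with hl
  obtain ⟨K, hK, hT⟩ := adf_sub hx
  obtain ⟨Cz, hCz, hzb⟩ := Pool.Agent.Helper4.VZ.zx_bd hx z
  have hUz := Pool.Agent.Helper4.VZ.zx_UB hx z b hb
  apply le_of_forall_pos_le_add
  intro ε hε
  have hTsub : ∀ {L : ℕ → ℝ}, S.Sub L → (osp l).Sub L := fun hL => chg_sub l.V 1 one_pos ((sp_Sub l).mpr hL)
  have hC0 : 0 ≤ (gaq Q D).C + 1 := by linarith [(gaq Q D).C0]
  have hA : ∀ᶠ k in UF, ∀ ω, ((osp l).F k).μ ω ≠ 0 →
      Cpd (2 ^ (((gaq Q D).C + 1) * ((osp l).F k).n)) ((fun k (ω : (x k).l.T.Ω) => (x k).g ω) k ω) := by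
    filter_upwards [hx 1 one_pos] with k hk ω hω
    rw [osp_n]
    exact (hk.2.1 ω hω).1
  have hZ : ∀ᶠ k in UF, ∀ ω ω', ((osp l).F k).μ ω ≠ 0 → ((osp l).F k).μ ω' ≠ 0 → ((osp l).F k).Z ω ω' →
      (fun k (ω : (x k).l.T.Ω) => (x k).g ω) k ω = (fun k (ω : (x k).l.T.Ω) => (x k).g ω) k ω' := by
    refine Eventually.of_forall fun k ω ω' a a' g => ?_
    exact ((x k).meas ω ω' a a' g.1 g.2).1
  have hdm := hz.typ hx ε hε
  have hcnt := CNT_vz (S := osp l) hD (oQ l Q) z (fun k (ω : (x k).l.T.Ω) => (x k).g ω) ((gaq Q D).C + 1) hC0 hA hZ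
    (fun k (ω : (x k).l.T.Ω) => (gaq Q D).φ k ((x k).l.p.π ω) ((x k).g ω) ≤ K k ∧
      Dmv ((x k).g ω) (sgl z) (2 ^ ((ee Q x (fun _ _ => sgl z) k ω + ε) * (S.F k).n)))
    (typ_and hT hdm) K (hTsub hK) (by
      refine Eventually.of_forall fun k ω _ h2 => ?_
      rw [osp_dl]
      exact h2.1)
    (fun k (ω : (x k).l.T.Ω) => Pool.Agent.Helper4.VZ.zx Q x z k ω + ε) (Cz + ε) (by
      filter_upwards [hzb] with k hk ω hω
      have := hk ω hω
      constructor <;> linarith) (by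
      refine Eventually.of_forall fun k ω _ h2 => ?_
      rw [osp_n, ← zx_ee]
      exact h2.2) b hb hb1
  have e1 := gexq_lb Q x
  have e2 : vol Q D x = M - ul (fun k => ∑ ω, ((osp (lb x)).F k).μ ω *
      gexq (oQ (lb x) Q) (fun k (ω : (x k).l.T.Ω) => (x k).g ω) k ω) := by
    rw [e1]
    rfl
  have e3 : ul (fun k => ∑ ω, ((osp l).F k).μ ω * max (Pool.Agent.Helper4.VZ.zx Q x z k ω + ε) b) ≤
      ul (fun k => ∑ ω, (x k).l.T.μ ω * max (Pool.Agent.Helper4.VZ.zx Q x z k ω) b) + ε := by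
    have h1 : ul (fun k => (∑ ω, (x k).l.T.μ ω * max (Pool.Agent.Helper4.VZ.zx Q x z k ω) b) + ε) =
        ul (fun k => ∑ ω, (x k).l.T.μ ω * max (Pool.Agent.Helper4.VZ.zx Q x z k ω) b) + ε := by
      rw [ul_add hUz (UB_const ε)]
      congr 1
      exact ul_eq tendsto_const_nhds
    rw [← h1]
    apply ul_mono
    · apply UB_of_nonneg_le (C := max (Cz + ε) b)
      · exact Eventually.of_forall fun k => Finset.sum_nonneg fun ω _ =>
          mul_nonneg ((x k).l.T.nn ω) (le_max_of_le_right hb)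
      · filter_upwards [hzb] with k hk
        exact sum_mul_le (F := (x k).l.T) _ _ fun ω hω => max_le_max (by linarith [(hk ω hω).2]) le_rfl
    · exact hUz.add (UB_const ε)
    · refine Eventually.of_forall fun k => ?_
      have h2 : ∑ ω, (x k).l.T.μ ω = 1 := (x k).l.T.ms
      have h3 : (∑ ω, (x k).l.T.μ ω * max (Pool.Agent.Helper4.VZ.zx Q x z k ω) b) + ε =
          ∑ ω, (x k).l.T.μ ω * (max (Pool.Agent.Helper4.VZ.zx Q x z k ω) b + ε) := by
        simp only [mul_add]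
        rw [Finset.sum_add_distrib, ← Finset.sum_mul, h2, one_mul]
      show ∑ ω, (x k).l.T.μ ω * max (Pool.Agent.Helper4.VZ.zx Q x z k ω + ε) b ≤ _
      rw [h3]
      refine Finset.sum_le_sum fun ω _ => mul_le_mul_of_nonneg_left ?_ ((x k).l.T.nn ω)
      apply max_le
      · have := le_max_left (Pool.Agent.Helper4.VZ.zx Q x z k ω) b
        linarith
      · have := le_max_right (Pool.Agent.Helper4.VZ.zx Q x z k ω) b
        linarith
  linarith

/-- VOLZ with the digits of the other coordinates, class-free -/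
theorem volz_P0 {A : κ → Part S} (hD : 1 ≤ D) {Q : S.VV M} {x : ∀ k, FD (S.F k) (Mon M D)}
    (hx : (gaq Q D).Adf A x) (z : Fin M) (hz : Dmz Q z x) {M' : ℕ}
    (P : S.VV M') (f : Fin M' → Fin M) (hf : ∀ j, f j ≠ z) (hP : ∀ k ω j, P.v k ω j = Q.v k ω (f j)) :
    H (up1 (lb x) (P.dg 1)) + 1 ≤ vol Q D x + Pool.Agent.Helper89.RAT.zx Q z x := by
  have h1 := volz_cz0 hD hx z hz 0 le_rfl zero_le_one
  set l : Lab S := lb x with hl
  have h2 : H (up1 l (P.dg 1)) ≤ ul ((osp l).rt (fun k => Setoid.ker (cz (oQ l Q) z 0 k)) (osp l).tr) := by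
    rw [← H_u1, ← oQ_dg]
    have h3 : H ((oQ l P).dg 1) = ul ((osp l).rt (fun k => Setoid.ker ((oQ l P).cellv 1 k)) (osp l).tr) :=
      Sp.H_io ((oQ l P).bdd 1)
    rw [h3]
    apply ul_mono (Sp.UB_rt ((oQ l P).bdd 1).toInf _) (cz_UB l Q z 0 zero_le_one)
    refine Eventually.of_forall fun k => ?_
    rw [rt_osp, rt_osp]
    apply div_le_div_of_nonneg_right _ (S.F k).pos.le
    apply FSp.e_mono
    intro ω ω' _ _ h4 _
    have h5 : cz (oQ l Q) z 0 k ω = cz (oQ l Q) z 0 k ω' := h4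
    show (oQ l P).cellv 1 k ω = (oQ l P).cellv 1 k ω'
    funext j
    have h6 := congrFun h5 (f j)
    unfold cz at h6
    rw [if_neg (hf j), oQ_v, oQ_v, ← hP, ← hP] at h6
    exact h6
  have h3 : ul (fun k => ∑ ω, (x k).l.T.μ ω * max (Pool.Agent.Helper4.VZ.zx Q x z k ω) 0) =
      Pool.Agent.Helper89.RAT.zx Q z x := by
    obtain ⟨C, hC, hzz⟩ := Pool.Agent.Helper4.VZ.zx_bd hx z
    apply ul_congr
    filter_upwards [hzz] with k hk
    refine Finset.sum_congr rfl fun ω _ => ?_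
    by_cases h0 : (x k).l.T.μ ω = 0
    · rw [h0, zero_mul, zero_mul]
    · rw [max_eq_left (hk ω h0).1]
      rfl
  rw [h3] at h1
  linarith

/-- VOLZ for the cells of `cel2`, class-free -/
theorem volz0 {A : κ → Part S} (hD : 1 ≤ D) {Q : S.VV M} {x : ∀ k, FD (S.F k) (Mon M D)}
    (hx : (gaq Q D).Adf A x) (z : Fin M) (hz : Dmz Q z x) (b : ℝ) (hb : 0 ≤ b)
    (hb1 : b ≤ 1) : ul (fun k => h ((x k).l.p.map (cel2 Q z 1 b k)) (x k).l.v / (S.F k).n) + 1 ≤
      vol Q D x + ul (fun k => ∑ ω, (x k).l.T.μ ω * max (Pool.Agent.Helper4.VZ.zx Q x z k ω) b) := by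
  have h1 := volz_cz0 hD hx z hz b hb hb1
  set l : Lab S := lb x with hl
  have hU := cz_UB l Q z b hb1
  have hM : Tendsto (fun k => (M : ℝ) / (S.F k).n) UF (𝓝 0) := S.div_n_tendsto M
  have hle : ∀ k, h ((x k).l.p.map (cel2 Q z 1 b k)) (x k).l.v / (S.F k).n ≤
      (osp l).rt (fun k => Setoid.ker (cz (oQ l Q) z b k)) (osp l).tr k + M / (S.F k).n := by
    intro k
    rw [rt_osp, ← add_div]
    apply div_le_div_of_nonneg_right _ (S.F k).pos.le
    have h2 := (cel_le l Q z b hb1 k ((l k).V ⊓ (l k).T.Z)).2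
    exact (le_of_eq (cel2_h l Q z b k)).trans h2
  have h2 : ul (fun k => h ((x k).l.p.map (cel2 Q z 1 b k)) (x k).l.v / (S.F k).n) ≤
      ul ((osp l).rt (fun k => Setoid.ker (cz (oQ l Q) z b k)) (osp l).tr) := by
    have h3 := ul_mono (UB.sandwich (UB_const 0) (hU.add (UB_of_tendsto hM))
      (Eventually.of_forall fun k => div_nonneg (h_nonneg _ _) (S.F k).pos.le)
      (Eventually.of_forall hle)) (hU.add (UB_of_tendsto hM)) (Eventually.of_forall hle)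
    rw [ul_add hU (UB_of_tendsto hM), ul_eq hM, add_zero] at h3
    exact h3
  linarith

end

end Pool.Agent.Helper89.RAK
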