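import Pool.Agent.Helper89.RAK.Zom
import Pool.Agent.Helper89.RAK.Prj
import Pool.Agent.Helper89.RAK.Volz
import Pool.Agent.Helper81.MT.Img
import Pool.Agent.Helper89.RAT.Win

/-! THE BOUND OF THE K-VOLUME BY THE PROJECTION AND THE GRADIENT, at every window, from the weak form of the structure
theorem for K-labels in dimension `d`. -/

set_option autoImplicit false

namespace Pool.Agent.Helper89.RAK

open Finset Filter Topology Matrix Pool.Agent.Helper69.RK Pool.Agent.Helper31.EC Pool.Agent.Helper31.EC.Sp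
open Pool.Agent.Helper40.EL Pool.Agent.Helper89.LX Pool.Agent.Helper3.LF Pool.Agent.Helper84.MT Pool.Agent.Helper26.MZ
open Pool.Agent.Helper95.LF
open Pool.Agent.Helper14.MC (gx vx vol_eq vx_UB vx_nonneg)
open Pool.Agent.Helper41.VC (fj vv_ext)
open Pool.Agent.Helper89.RAT (zx zx_inn)

noncomputable section

/-- `ST^K(D; M; E, iota)`, weak form: at the window `0` the volume of the K-labels (leak exactly zero at the cells of the
point) is at most the entropy of the point -/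
def STKm (D M : ℕ) (E : ℕ → ℕ) (ι : Type) : Prop := ∀ (S : Sp) (s : MSys S M E ι) (x : ∀ k, FD (S.F k) (Mon M D)),
  (gaq s.Q D).OptfK (LC.kz (pcd s.Q)) (s.cnd 0) x → vol s.Q D x ≤ H (s.Q.dg 1)

variable {S : Sp} {d D g : ℕ} {ι : Type}

/-- the projection which forgets the coordinate `j` -/
def prK (s : MSys S (d + 1) (lin g) ι) (j : Fin (d + 1)) : MSys S d (lin g) ι :=
  s.img (PMap.coo _ j.succAbove) le_rfl (fun D => le_of_eq (by rw [one_mul]))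

theorem prK_v (s : MSys S (d + 1) (lin g) ι) (j : Fin (d + 1)) (k : ℕ) (ω : (S.F k).Ω) :
    (prK s j).Q.v k ω = fj j (s.Q.v k ω) := PMap.coo_ev j.succAbove k ω (s.Q.v k ω)

theorem prK_eq (s : MSys S (d + 1) (lin g) ι) (j : Fin (d + 1)) (P : S.VV d)
    (hP : ∀ k ω a, P.v k ω a = s.Q.v k ω (j.succAbove a)) : P = (prK s j).Q := by
  apply vv_ext
  funext k ω
  rw [prK_v]
  funext a
  exact hP k ω a

theorem prK_lit {s : MSys S (d + 1) (lin g) ι} {R : ∀ k, Setoid (S.F k).Ω} (h : Lit R s.Q) (j : Fin (d + 1)) :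
    Lit R (prK s j).Q := by
  intro k ω ω' r
  have h1 : s.Q.v k ω = s.Q.v k ω' := h k r
  show (prK s j).Q.v k ω = (prK s j).Q.v k ω'
  rw [prK_v, prK_v, h1]

/-- THE BOUND AT THE WINDOW `0` -/
theorem idPK [Finite ι] (hst : STKm D d (lin g) ι) (s : MSys S (d + 1) (lin g) ι) {R : ∀ k, Setoid (S.F k).Ω}
    (hlit : Lit R s.Q) {x : ∀ k, FD (S.F k) (Mon (d + 1) D)} (hx : (gaq s.Q D).OptfK (KC R) (s.cnd 0) x)
    (j : Fin (d + 1)) (P : S.VV d) (hP : ∀ k ω a, P.v k ω a = s.Q.v k ω (j.succAbove a)) :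
    vol s.Q D x ≤ 1 - zx s.Q j x + H (P.dg 1) := by
  obtain ⟨y, hy⟩ := (gaq (prK s j).Q D).exists_optfK (LC.kz (pcd (prK s j).Q)) ((prK s j).cnd 0)
  have h1 := hst S (prK s j) y hy
  have h2 : (lb y).DMf (s.cnd 0) := MSys.DMc.of_img (Gau.Adf.dm _ hy.1.1)
  have h3 : (gaq s.Q D).Adf (s.cnd 0) (zf1 s.Q j y) := zf1_adf (fun k ω => prK_v s j k ω) hy.1.1 h2
  have h4 : (KC R).ev (fun k => (zf1 s.Q j y k).l) :=
    LC.kz_mono (Eventually.of_forall fun k => (prK_lit hlit j).pcd k) hy.1.2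
  have h5 := optK_dom hx ⟨h3, h4⟩
  have h6 := vol_prj (fun k ω => prK_v s j k ω) hx.1.1 hy.1.1 h5
  rw [prK_eq s j P hP]
  linarith

/-- THE BOUND AT EVERY WINDOW -/
theorem idPK_win [Finite ι] (hD : 1 ≤ D) (hst : STKm D d (lin g) ι) (s : MSys S (d + 1) (lin g) ι)
    {R : ∀ k, Setoid (S.F k).Ω} (hlit : Lit R s.Q) {c : ℝ} (h0 : 0 ≤ c) (h1 : c < 1)
    {x : ∀ k, FD (S.F k) (Mon (d + 1) D)} (hx : IsCanK s R D c x) (j : Fin (d + 1)) (P : S.VV d)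
    (hP : ∀ k ω a, P.v k ω a = s.Q.v k ω (j.succAbove a)) :
    vol s.Q D x ≤ 1 - zx s.Q j x + H (up1 (lb x) (P.dg 1)) := by
  set Z : ZM s := s.mkz h0 h1 hx.2.1 with hZ
  have hk : IsKapK s R c Z.l := hx.2.cL h0 h1.le hlit
  have hc : Z.c = c := rfl
  have hx' : IsCanK s R D (Z.c + Z.e * 0) x := by
    rw [mul_zero, add_zero]
    exact hx
  have hy := hx'.inn Z hk.2.1 le_rfl
  have hv := volK_zoom Z hk.2.1 hD le_rfl hy.1 hx'.1
  have hz := zx_inn Z le_rfl j hx'.1.1.1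
  have hcell : ∀ k ω ω', (Z.l k).T.μ ω ≠ 0 → (Z.l k).T.μ ω' ≠ 0 → (Z.l k).V ω ω' → (Z.l k).T.Z ω ω' →
      P.cellv Z.c k ((Z.l k).p.π ω) = P.cellv Z.c k ((Z.l k).p.π ω') := by
    intro k ω ω' a b c d
    have h2 := Z.cell k ω ω' a b c d
    funext i
    have h3 := congrFun h2 (j.succAbove i)
    show ⌊P.v k ((Z.l k).p.π ω) i / S.dl Z.c k⌋ = ⌊P.v k ((Z.l k).p.π ω') i / S.dl Z.c k⌋
    rw [hP, hP]
    exact h3
  have h2 := idPK hst Z.sys (hlit.zoom Z) hy.1 j (Z.fr P) (by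
    intro k ω a
    show P.v k ((Z.l k).p.π ω) a / S.dl Z.c k - ⌊P.v k ((Z.l k).p.π ω) a / S.dl Z.c k⌋ =
      s.Q.v k ((Z.l k).p.π ω) (j.succAbove a) / S.dl Z.c k -
        ⌊s.Q.v k ((Z.l k).p.π ω) (j.succAbove a) / S.dl Z.c k⌋
    rw [hP])
  have h3 : H ((Z.fr P).dg 1) = H (up1 (lb x) (P.dg 1)) / Z.e := by
    rw [Z.fr_dg P hcell, mul_one, Z.c_add_e]
    have h4 : H (Z.U (P.dg 1)) = H (up1 Z.l (P.dg 1)) / Z.e := by
      have h5 := Z.l.H_upL Z.e Z.e_pos (P.dg 1)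
      have h6 := Z.l.H_upL 1 one_pos (P.dg 1)
      rw [div_one] at h6
      have h7 : H (Z.U (P.dg 1)) = H (Z.l.upL Z.e Z.e_pos (P.dg 1)) := rfl
      have h8 : H (up1 Z.l (P.dg 1)) = H (Z.l.upL 1 one_pos (P.dg 1)) := rfl
      rw [h7, h8, h5, h6]
    rw [h4, IsKapK.H_eq hk hx.2]
  rw [h3] at h2
  have he := Z.e_pos
  have h9 : Z.e * vol Z.sys.Q D (Z.inn x) ≤ Z.e * (1 - zx Z.sys.Q j (Z.inn x) + H (up1 (lb x) (P.dg 1)) / Z.e) :=
    mul_le_mul_of_nonneg_left h2 he.le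
  have h10 : Z.e * (1 - zx Z.sys.Q j (Z.inn x) + H (up1 (lb x) (P.dg 1)) / Z.e) =
      Z.e - Z.e * zx Z.sys.Q j (Z.inn x) + H (up1 (lb x) (P.dg 1)) := by
    field_simp
  rw [hv]
  have h11 := Z.c_add_e
  linarith

/-- the bound from below -/
theorem vzK [Finite ι] (hD : 1 ≤ D) (s : MSys S (d + 1) (lin g) ι)
    {R : ∀ k, Setoid (S.F k).Ω} (hlit : Lit R s.Q) {c : ℝ}
    {x : ∀ k, FD (S.F k) (Mon (d + 1) D)} (hx : (gaq s.Q D).OptfK (KC R) (s.cnd c) x) (j : Fin (d + 1)) (P : S.VV d)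
    (hP : ∀ k ω a, P.v k ω a = s.Q.v k ω (j.succAbove a)) :
    H (up1 (lb x) (P.dg 1)) + 1 - zx s.Q j x ≤ vol s.Q D x := by
  have h1 := (slf_K (gaq s.Q D) hx).dmz hx.1.1 (fun k => hlit.cell 1 k) j
  have h2 := volz_P0 hD hx.1.1 j h1 P j.succAbove (fun a => Fin.succAbove_ne j a) (fun k ω a => hP k ω a)
  linarith

end

end Pool.Agent.Helper89.RAK
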