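import Pool.Agent.Helper89.RAK.Kz
import Pool.Agent.Helper89.RAK.Cmp
import Pool.Agent.Helper26.MT.Ze
import Pool.Agent.Helper84.MT.Fun

/-! K-LABELS OF ONE SYSTEM: labels of the window `c` (no leak up to `o(n)` at the point and at the windows) whose leak at
the resolution `R` is exactly zero. Canonical K-forms, entropies, zoom over a K-label. -/

set_option autoImplicit false

namespace Pool.Agent.Helper89.RAK

open Finset Filter Topology Matrix Pool.Agent.Helper69.RK Pool.Agent.Helper31.EC Pool.Agent.Helper31.EC.Sp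
open Pool.Agent.Helper40.EL Pool.Agent.Helper89.LX Pool.Agent.Helper3.LF Pool.Agent.Helper84.MT Pool.Agent.Helper26.MZ
open Pool.Agent.Helper95.LF

noncomputable section

variable {S : Sp} {M D : ℕ} {E : ℕ → ℕ} {ι : Type}

/-- the class of the labels whose leak at `R` is exactly zero -/
abbrev KC (R : ∀ k, Setoid (S.F k).Ω) : LC S := LC.kz fun k => fc (R k)

/-- the point is a literal function of the resolution `R` -/
def Lit (R : ∀ k, Setoid (S.F k).Ω) (Q : S.VV M) : Prop := ∀ k, R k ≤ Setoid.ker (Q.v k)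

/-- exact labels over exact labels are exact -/
theorem comp_kz {F : FSp} (l : FLab F) (c : ℝ) (hc : 0 < c) (l2 : FLab (l.ovr c hc)) (x : FL F) (h1 : l.leak x = 0)
    (h2 : l2.leak (l.up c hc x) = 0) : (l.comp c hc l2).leak x = 0 := by
  apply le_antisymm _ (FLab.leak_nonneg _ _)
  refine (l.comp_leak_le c hc l2 x).trans ?_
  rw [h1, h2, add_zero]

/-- exact labels are exact over a label -/
theorem ovl_kz {F : FSp} (l : FLab F) (c : ℝ) (hc : 0 < c) (y : FLab F) (x : FL F) (h1 : y.leak x = 0) :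
    (l.ovl c hc y).leak (l.up c hc x) = 0 := by
  apply le_antisymm _ (FLab.leak_nonneg _ _)
  exact (l.ovl_leak_le c hc y x).trans h1.le

theorem Lit.cell {R : ∀ k, Setoid (S.F k).Ω} {Q : S.VV M} (h : Lit R Q) (c : ℝ) (k : ℕ) :
    R k ≤ Setoid.ker (Q.cellv c k) := by
  intro ω ω' r
  have h1 : Q.v k ω = Q.v k ω' := h k r
  show Q.cellv c k ω = Q.cellv c k ω'
  funext i
  show ⌊Q.v k ω i / S.dl c k⌋ = ⌊Q.v k ω' i / S.dl c k⌋
  rw [h1]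

theorem Lit.pcd {R : ∀ k, Setoid (S.F k).Ω} {Q : S.VV M} (h : Lit R Q) (k : ℕ) : Pool.Agent.Helper84.MT.pcd Q k ≤ fc (R k) :=
  fc_mono (h.cell 1 k)

/-- K-LABELS of the window `c` -/
def DMK (s : MSys S M E ι) (R : ∀ k, Setoid (S.F k).Ω) (c : ℝ) (l : Lab S) : Prop := s.DMc c l ∧ (KC R).ev l

/-- the maximal K-label of the window `c` -/
def IsKapK (s : MSys S M E ι) (R : ∀ k, Setoid (S.F k).Ω) (c : ℝ) (l : Lab S) : Prop :=
  Lab.IsMaxK (KC R) l (s.cnd c)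

/-- CANONICAL K-FORM of the window `c` -/
def IsCanK (s : MSys S M E ι) (R : ∀ k, Setoid (S.F k).Ω) (D : ℕ) (c : ℝ) (x : ∀ k, FD (S.F k) (Mon M D)) : Prop :=
  (gaq s.Q D).OptfK (KC R) (s.cnd c) x ∧ IsKapK s R c (lb x)

variable {s : MSys S M E ι} {R : ∀ k, Setoid (S.F k).Ω}

theorem exists_canK [Finite ι] (s : MSys S M E ι) (R : ∀ k, Setoid (S.F k).Ω) (D : ℕ) (c : ℝ) :
    ∃ x, IsCanK s R D c x :=
  Gau.exists_kapfK (gaq s.Q D) (KC R) (s.cnd c) (i₀ := none) (pcd_Bd s.Q)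

theorem IsKapK.dmk {c : ℝ} {l : Lab S} (h : IsKapK s R c l) : DMK s R c l := ⟨h.1, h.2.1⟩

theorem DMK.mono {a b : ℝ} (hab : a ≤ b) {l : Lab S} (h : DMK s R a l) : DMK s R b l :=
  ⟨MSys.DMc.mono hab h.1, h.2⟩

/-- K-labels for a coarser resolution are K-labels -/
theorem DMK.res {c : ℝ} {l : Lab S} (h : DMK s R c l) {R' : ∀ k, Setoid (S.F k).Ω} (hR : ∀ k, R' k ≤ R k) :
    DMK s R' c l := ⟨h.1, LC.kz_mono (Eventually.of_forall fun k => fc_mono (hR k)) h.2⟩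

theorem IsKapK.univ {c : ℝ} {l l' : Lab S} (h : IsKapK s R c l) (h' : DMK s R c l') :
    Nul S (fun k => I (((l k).am (l' k)).p2.map (l' k).v) (((l k).am (l' k)).p1.map (l k).p.top)
      (((l k).am (l' k)).p1.map (l k).v)) := Lab.IsMaxK.univ (i := none) h h'.1 h'.2 (pcd_Bd s.Q)

/-- entropies over a maximal K-label are the smallest -/
theorem IsKapK.H_le {c : ℝ} {l l' : Lab S} (h : IsKapK s R c l) (h' : DMK s R c l') (Y : S.L) :
    H (up1 l Y) ≤ H (up1 l' Y) := Lab.H_le_of_univ (h.univ h') Y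

/-- entropies over maximal K-labels do not depend on the label -/
theorem IsKapK.H_eq {c : ℝ} {l l' : Lab S} (h : IsKapK s R c l) (h' : IsKapK s R c l') (Y : S.L) :
    H (up1 l Y) = H (up1 l' Y) := le_antisymm (h.H_le h'.dmk Y) (h'.H_le h.dmk Y)

theorem IsKapK.h_eq {c : ℝ} {l l' : Lab S} (hl : IsKapK s R c l) (hl' : IsKapK s R c l') (X Y : S.L) :
    h (up1 l X) (up1 l Y) = h (up1 l' X) (up1 l' Y) := by
  have h1 : h (up1 l X) (up1 l Y) = H (up1 l X ⊔ up1 l Y) - H (up1 l Y) := rfl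
  have h2 : h (up1 l' X) (up1 l' Y) = H (up1 l' X ⊔ up1 l' Y) - H (up1 l' Y) := rfl
  rw [h1, h2, ← up1_sup, ← up1_sup, hl.H_eq hl', hl.H_eq hl']

theorem IsKapK.info_mono {a b : ℝ} (hab : a ≤ b) {l l' : Lab S} (h : IsKapK s R a l) (h' : IsKapK s R b l') :
    l.info ≤ l'.info := h'.2.2 l (MSys.DMc.mono hab h.1) h.2.1

/-! ### the base knows the cell of level `c` -/

theorem kz_cL {c : ℝ} (hlit : Lit R s.Q) {l : Lab S} (h : (KC R).ev l) : (KC R).ev (cL s c l) := by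
  filter_upwards [h] with k hk
  exact addW_kz (l k) (cW s c l k) (R k) hk fun ω ω' _ _ _ _ r => hlit.cell c k r

theorem DMK.cL {c : ℝ} (h0 : 0 ≤ c) (h1 : c ≤ 1) (hlit : Lit R s.Q) {l : Lab S} (h : DMK s R c l) :
    DMK s R c (cL s c l) := ⟨cL_DMc h0 h1 h.1, kz_cL hlit h.2⟩

theorem IsKapK.cL {c : ℝ} (h0 : 0 ≤ c) (h1 : c ≤ 1) (hlit : Lit R s.Q) {l : Lab S} (h : IsKapK s R c l) :
    IsKapK s R c (cL s c l) := by
  have h2 := h.dmk.cL h0 h1 hlit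
  refine ⟨h2.1, h2.2, fun l' hl' hC' => (h.2.2 l' hl' hC').trans ?_⟩
  apply ul_mono (Lab.DMf.ub h.1 (i := none) (pcd_Bd s.Q)) (Lab.DMf.ub h2.1 (i := none) (pcd_Bd s.Q))
  refine Eventually.of_forall fun k => div_le_div_of_nonneg_right ?_ (S.F k).pos.le
  have h3 : I (l k).v (l k).p.top ⊥ ≤ I (fc ((l k).V ⊓ cW s c l k) : FL (l k).T) (l k).p.top ⊥ := by
    apply I_mono_left
    rw [fc_inf]
    exact le_sup_left.trans le_sup_left
  exact h3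

/-! ### zoom -/

section zoom

variable (Z : ZM s)

/-- the resolution in the space of the zoom -/
def zR (R : ∀ k, Setoid (S.F k).Ω) (k : ℕ) : Setoid (Z.sp.F k).Ω := Setoid.comap (Z.l k).p.π (R k)

theorem fc_zR (R : ∀ k, Setoid (S.F k).Ω) (k : ℕ) :
    (fc (zR Z R k) : FL (Z.sp.F k)) = (Z.l k).up Z.e Z.e_pos (fc (R k)) := rfl

theorem Lit.zoom (h : Lit R s.Q) : Lit (zR Z R) Z.sys.Q := by
  intro k ω ω' r
  have h1 : s.Q.v k ((Z.l k).p.π ω) = s.Q.v k ((Z.l k).p.π ω') := h k r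
  show Z.sys.Q.v k ω = Z.sys.Q.v k ω'
  funext i
  show s.Q.v k ((Z.l k).p.π ω) i / S.dl Z.c k - (⌊s.Q.v k ((Z.l k).p.π ω) i / S.dl Z.c k⌋ : ℝ) =
    s.Q.v k ((Z.l k).p.π ω') i / S.dl Z.c k - (⌊s.Q.v k ((Z.l k).p.π ω') i / S.dl Z.c k⌋ : ℝ)
  rw [h1]

/-- K-labels of the zoom over a K-label are K-labels of the system -/
theorem kz_cl (hl : (KC R).ev Z.l) {y : Lab Z.sp} (hy : (KC (zR Z R)).ev y) : (KC R).ev (Z.cl y) := by
  filter_upwards [hl, hy] with k a b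
  exact comp_kz (Z.l k) Z.e Z.e_pos (y k) (fc (R k)) a b

theorem kz_ov {y : Lab S} (hy : (KC R).ev y) : (KC (zR Z R)).ev (Z.ov y) := by
  filter_upwards [hy] with k b
  exact ovl_kz (Z.l k) Z.e Z.e_pos (y k) (fc (R k)) b

theorem DMK.zcl (hl : (KC R).ev Z.l) {b : ℝ} (hb : 0 ≤ b) {y : Lab Z.sp} (hy : DMK Z.sys (zR Z R) b y) :
    DMK s R (Z.c + Z.e * b) (Z.cl y) := ⟨Z.DMc_cl hb hy.1, kz_cl Z hl hy.2⟩

theorem DMK.zov {b : ℝ} (hb : 0 ≤ b) {y : Lab S} (hy : DMK s R (Z.c + Z.e * b) y) :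
    DMK Z.sys (zR Z R) b (Z.ov y) := ⟨Z.DMc_ov hb hy.1, kz_ov Z hy.2⟩

/-- informations of composed labels -/
theorem info_cl {b : ℝ} (hb : 0 ≤ b) {y : Lab Z.sp} (hy : Z.sys.DMc b y) :
    y.info = ((Z.cl y).info - Z.l.info) / Z.e := by
  have h1 := (Z.DMc_iff hb).mp hy
  have h2 := Lab.DMf.comp (Z.dm.mono (Z.c_le hb)) h1
  exact (Lab.info_comp (Lab.DMf.ub (Z.dm.mono (Z.c_le hb)) (i := none) (pcd_Bd s.Q))
    (Lab.DMf.ub h2 (i := none) (pcd_Bd s.Q)) (h1 none)).1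

/-- MAXIMAL K-LABELS OF THE ZOOM ARE MAXIMAL K-LABELS OF THE SYSTEM -/
theorem IsKapK.zcl (hl : (KC R).ev Z.l) {b : ℝ} (hb : 0 ≤ b) {y : Lab Z.sp} (hy : IsKapK Z.sys (zR Z R) b y) :
    IsKapK s R (Z.c + Z.e * b) (Z.cl y) := by
  have h0 := hy.dmk.zcl Z hl hb
  refine ⟨h0.1, h0.2, fun y' h' hC' => ?_⟩
  have h1 := DMK.zov Z hb (R := R) ⟨h', hC'⟩
  have h2 := hy.2.2 _ h1.1 h1.2
  rw [info_cl Z hb h1.1, info_cl Z hb hy.1] at h2
  have h3 : y'.info ≤ (Z.cl (Z.ov y')).info := Lab.DMf.le_ovl_info (i := none) (Z.dm.mono (Z.c_le hb)) h' (pcd_Bd s.Q)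
  have h4 : (Z.cl (Z.ov y')).info - Z.l.info ≤ (Z.cl y).info - Z.l.info := by
    by_contra hcon
    push Not at hcon
    have := div_lt_div_of_pos_right hcon Z.e_pos
    linarith
  linarith

/-- maximal K-labels of the system are maximal K-labels of the zoom -/
theorem IsKapK.zov (hl : (KC R).ev Z.l) {b : ℝ} (hb : 0 ≤ b) {y : Lab S} (h : IsKapK s R (Z.c + Z.e * b) y) :
    IsKapK Z.sys (zR Z R) b (Z.ov y) := by
  have h1 := h.dmk.zov Z hb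
  refine ⟨h1.1, h1.2, fun l' hl' hC' => ?_⟩
  have h2 := DMK.zcl Z hl hb (R := R) ⟨hl', hC'⟩
  have h3 := h.2.2 _ h2.1 h2.2
  have h4 : y.info ≤ (Z.cl (Z.ov y)).info := Lab.DMf.le_ovl_info (i := none) (Z.dm.mono (Z.c_le hb)) h.1 (pcd_Bd s.Q)
  rw [info_cl Z hb h1.1, info_cl Z hb hl']
  apply div_le_div_of_nonneg_right _ Z.e_pos.le
  linarith

theorem adfK_out [Finite ι] (hl : (KC R).ev Z.l) {b : ℝ} (hb : 0 ≤ b) {y : ∀ k, FD (Z.sp.F k) (Mon M D)}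
    (hy : (gaq Z.sys.Q D).AdfK (KC (zR Z R)) (Z.sys.cnd b) y) :
    (gaq s.Q D).AdfK (KC R) (s.cnd (Z.c + Z.e * b)) (Z.out y) := ⟨Z.out_ad hb hy.1, kz_cl Z hl hy.2⟩

theorem adfK_inn [Finite ι] {b : ℝ} (hb : 0 ≤ b) {x : ∀ k, FD (S.F k) (Mon M D)}
    (hx : (gaq s.Q D).AdfK (KC R) (s.cnd (Z.c + Z.e * b)) x) :
    (gaq Z.sys.Q D).AdfK (KC (zR Z R)) (Z.sys.cnd b) (Z.inn x) := ⟨Z.inn_ad hb hx.1, kz_ov Z hx.2⟩

/-- OPTIMAL K-FORMS OF THE ZOOM ARE OPTIMAL K-FORMS OF THE SYSTEM -/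
theorem optK_out [Finite ι] (hl : (KC R).ev Z.l) {b : ℝ} (hb : 0 ≤ b) {y : ∀ k, FD (Z.sp.F k) (Mon M D)}
    (hy : (gaq Z.sys.Q D).OptfK (KC (zR Z R)) (Z.sys.cnd b) y) :
    (gaq s.Q D).OptfK (KC R) (s.cnd (Z.c + Z.e * b)) (Z.out y) := by
  refine ⟨adfK_out Z hl hb hy.1, fun x hx => ?_⟩
  have h1 := Z.sc_inn hb hx.1
  have h2 := mul_le_mul_of_nonneg_left (hy.2 _ (adfK_inn Z hb hx)) Z.e_pos.le
  have h3 := Z.sc_out hb hy.1.1
  linarith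

/-- OPTIMAL K-FORMS OF THE SYSTEM ARE OPTIMAL K-FORMS OF THE ZOOM -/
theorem optK_inn [Finite ι] (hl : (KC R).ev Z.l) {b : ℝ} (hb : 0 ≤ b) {x : ∀ k, FD (S.F k) (Mon M D)}
    (hx : (gaq s.Q D).OptfK (KC R) (s.cnd (Z.c + Z.e * b)) x) :
    (gaq Z.sys.Q D).OptfK (KC (zR Z R)) (Z.sys.cnd b) (Z.inn x) := by
  refine ⟨adfK_inn Z hb hx.1, fun y hy => ?_⟩
  have h1 := Z.sc_inn hb hx.1.1
  have h2 := hx.2 _ (adfK_out Z hl hb hy)
  have h3 := Z.sc_out hb hy.1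
  have h4 : Z.e * ul (fun k => (y k).sc / (Z.sp.F k).n) ≤ Z.e * ul (fun k => (Z.inn x k).sc / (Z.sp.F k).n) := by
    linarith
  exact le_of_mul_le_mul_left h4 Z.e_pos

theorem IsCanK.out [Finite ι] (hl : (KC R).ev Z.l) {b : ℝ} (hb : 0 ≤ b) {y : ∀ k, FD (Z.sp.F k) (Mon M D)}
    (hy : IsCanK Z.sys (zR Z R) D b y) : IsCanK s R D (Z.c + Z.e * b) (Z.out y) :=
  ⟨optK_out Z hl hb hy.1, hy.2.zcl Z hl hb⟩

theorem IsCanK.inn [Finite ι] (hl : (KC R).ev Z.l) {b : ℝ} (hb : 0 ≤ b) {x : ∀ k, FD (S.F k) (Mon M D)}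
    (hx : IsCanK s R D (Z.c + Z.e * b) x) : IsCanK Z.sys (zR Z R) D b (Z.inn x) :=
  ⟨optK_inn Z hl hb hx.1, hx.2.zov Z hl hb⟩

end zoom

/-! ### volumes -/

open Pool.Agent.Helper14.MC (adf_sub gx vx vol_eq vx_UB vx_nonneg)

/-- the optimal K-form dominates all K-forms -/
theorem optK_dom {κ : Type} {A : κ → Part S} {Q : S.VV M} {x y : ∀ k, FD (S.F k) (Mon M D)}
    (hx : (gaq Q D).OptfK (KC R) A x) (hy : (gaq Q D).AdfK (KC R) A y) : DomJ x y :=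
  fun e he => Gau.OptfK.dom (gaq Q D) hx hy e he

theorem volK_le {κ : Type} {A : κ → Part S} {Q : S.VV M} {x y : ∀ k, FD (S.F k) (Mon M D)}
    (hx : (gaq Q D).OptfK (KC R) A x) (hy : (gaq Q D).AdfK (KC R) A y) : vol Q D x ≤ vol Q D y :=
  (optK_dom hx hy).vol_le hx.1.1 hy.1

theorem volK_eq {κ : Type} {A : κ → Part S} {Q : S.VV M} {x y : ∀ k, FD (S.F k) (Mon M D)}
    (hx : (gaq Q D).OptfK (KC R) A x) (hy : (gaq Q D).OptfK (KC R) A y) : vol Q D x = vol Q D y :=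
  le_antisymm (volK_le hx hy.1) (volK_le hy hx.1)

theorem zxK_le {κ : Type} {A : κ → Part S} {Q : S.VV M} {x y : ∀ k, FD (S.F k) (Mon M D)}
    (hx : (gaq Q D).OptfK (KC R) A x) (hy : (gaq Q D).AdfK (KC R) A y) (z : Fin M) :
    Pool.Agent.Helper89.RAT.zx Q z y ≤ Pool.Agent.Helper89.RAT.zx Q z x :=
  (optK_dom hx hy).zx_le hx.1.1 hy.1 z

theorem zxK_eq {κ : Type} {A : κ → Part S} {Q : S.VV M} {x y : ∀ k, FD (S.F k) (Mon M D)}
    (hx : (gaq Q D).OptfK (KC R) A x) (hy : (gaq Q D).OptfK (KC R) A y) (z : Fin M) :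
    Pool.Agent.Helper89.RAT.zx Q z x = Pool.Agent.Helper89.RAT.zx Q z y :=
  le_antisymm (zxK_le hy hx.1 z) (zxK_le hx hy.1 z)

theorem adfK_mono {a b : ℝ} (hab : a ≤ b) {x : ∀ k, FD (S.F k) (Mon M D)} [Finite ι]
    (hx : (gaq s.Q D).AdfK (KC R) (s.cnd a) x) : (gaq s.Q D).AdfK (KC R) (s.cnd b) x :=
  ⟨hx.1.mono_of fun i => ⟨i, s.cnd_mono hab i⟩, hx.2⟩

/-- THE VOLUMES of the zoom and of the system -/
theorem volK_zoom [Finite ι] (Z : ZM s) (hl : (KC R).ev Z.l) (hD : 1 ≤ D) {b : ℝ} (hb : 0 ≤ b)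
    {y : ∀ k, FD (Z.sp.F k) (Mon M D)} (hy : (gaq Z.sys.Q D).OptfK (KC (zR Z R)) (Z.sys.cnd b) y)
    {x : ∀ k, FD (S.F k) (Mon M D)} (hx : (gaq s.Q D).OptfK (KC R) (s.cnd (Z.c + Z.e * b)) x) :
    vol s.Q D x = Z.e * vol Z.sys.Q D y := by
  apply le_antisymm
  · exact (volK_le hx (adfK_out Z hl hb hy.1)).trans (Z.vol_out_le hD hb hy.1.1)
  · refine le_trans ?_ (Z.vol_inn_le hb hx.1.1)
    exact mul_le_mul_of_nonneg_left (volK_le hy (adfK_inn Z hb hx.1)) Z.e_pos.le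

/-- entropies over maximal K-labels of the zoom and of the system -/
theorem H_kapK (Z : ZM s) (hl : (KC R).ev Z.l) {b : ℝ} (hb : 0 ≤ b) {L : Lab S}
    (hL : IsKapK s R (Z.c + Z.e * b) L) {y : Lab Z.sp}
    (hy : IsKapK Z.sys (zR Z R) b y) (X : S.L) : H (up1 L X) = Z.e * H (up1 y (Z.U X)) := by
  rw [← Z.H_cl, hL.H_eq (hy.zcl Z hl hb)]

theorem h_kapK (Z : ZM s) (hl : (KC R).ev Z.l) {b : ℝ} (hb : 0 ≤ b) {L : Lab S}
    (hL : IsKapK s R (Z.c + Z.e * b) L) {y : Lab Z.sp}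
    (hy : IsKapK Z.sys (zR Z R) b y) (X Y : S.L) :
    h (up1 L X) (up1 L Y) = Z.e * h (up1 y (Z.U X)) (up1 y (Z.U Y)) := by
  rw [← Z.h_cl, hL.h_eq (hy.zcl Z hl hb)]

/-- the volume of the K-labels -/
def volK [Finite ι] (s : MSys S M E ι) (R : ∀ k, Setoid (S.F k).Ω) (D : ℕ) (c : ℝ) : ℝ :=
  vol s.Q D (exists_canK s R D c).choose

theorem volK_eq' [Finite ι] {c : ℝ} {x : ∀ k, FD (S.F k) (Mon M D)} (hx : (gaq s.Q D).OptfK (KC R) (s.cnd c) x) :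
    volK s R D c = vol s.Q D x := volK_eq (exists_canK s R D c).choose_spec.1 hx

theorem volK_anti [Finite ι] (s : MSys S M E ι) (R : ∀ k, Setoid (S.F k).Ω) (D : ℕ) {a b : ℝ} (hab : a ≤ b) :
    volK s R D b ≤ volK s R D a := by
  obtain ⟨x, hx⟩ := exists_canK s R D a
  obtain ⟨y, hy⟩ := exists_canK s R D b
  rw [volK_eq' hx.1, volK_eq' hy.1]
  exact volK_le hy.1 (adfK_mono hab hx.1.1)

/-- ordinary labels have smaller volumes than K-labels -/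
theorem vol_le_volK [Finite ι] (s : MSys S M E ι) (R : ∀ k, Setoid (S.F k).Ω) (D : ℕ) (c : ℝ) :
    s.vol D c ≤ volK s R D c := by
  obtain ⟨x, hx⟩ := exists_canK s R D c
  rw [volK_eq' hx.1]
  exact s.vol_le_of hx.1.1.1

theorem volK_le_M [Finite ι] (s : MSys S M E ι) (R : ∀ k, Setoid (S.F k).Ω) (D : ℕ) (c : ℝ) : volK s R D c ≤ M := by
  obtain ⟨x, hx⟩ := exists_canK s R D c
  rw [volK_eq' hx.1, vol_eq]
  have h1 : 0 ≤ ul (vx s.Q x) := by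
    have h2 := ul_mono (UB_const 0) (vx_UB hx.1.1.1) (vx_nonneg hx.1.1.1)
    rwa [ul_const] at h2
  linarith

end

end Pool.Agent.Helper89.RAK
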