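import Pool.Agent.Helper89.RAK.Zom
import Pool.Agent.Helper91.RAT.Gn

/-! RIGHT CONTINUITY IN THE WINDOW for K-labels (the versions of `Helper91/RAT/{Rc,Gn}`): the information of the maximal
K-label, the entropies over it, the volume, and the numbers `h(y_r | A, kappa^K_c)`. -/

set_option autoImplicit false

namespace Pool.Agent.Helper89.RAK

open Finset Filter Topology Matrix Pool.Agent.Helper69.RK Pool.Agent.Helper31.EC Pool.Agent.Helper31.EC.Sp
open Pool.Agent.Helper40.EL Pool.Agent.Helper89.LX Pool.Agent.Helper3.LF Pool.Agent.Helper84.MT Pool.Agent.Helper26.MZ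
open Pool.Agent.Helper95.LF
open Pool.Agent.Helper91.RAT (leak_win h_join H_join_ge DMc.info_UB inc_eq)

noncomputable section

variable {S : Sp} {M : ℕ} {E : ℕ → ℕ} {ι : Type}

/-- the maximal K-label of the window -/
def kapK [Finite ι] (s : MSys S M E ι) (R : ∀ k, Setoid (S.F k).Ω) (c : ℝ) : Lab S :=
  lb (exists_canK s R 1 c).choose

theorem kapK_is [Finite ι] (s : MSys S M E ι) (R : ∀ k, Setoid (S.F k).Ω) (c : ℝ) : IsKapK s R c (kapK s R c) :=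
  (exists_canK s R 1 c).choose_spec.2

section
variable {s : MSys S M E ι} {R : ∀ k, Setoid (S.F k).Ω} {c c' : ℝ} {l l' : Lab S}

/-- the join of a K-label with a maximal K-label of a larger window -/
theorem IsKapK.join (hc : c ≤ c') (hl : DMK s R c l) (hl' : IsKapK s R c' l') : IsKapK s R c' (l.join l') := by
  have h1 : s.DMc c' (l.join l') := Lab.DMf.join (MSys.DMc.mono hc hl.1) hl'.1
  refine ⟨h1, hl.2.join hl'.2.1, fun l2 h2 h3 => (hl'.2.2 l2 h2 h3).trans ?_⟩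
  exact ul_mono (DMc.info_UB hl'.1) (DMc.info_UB h1) (Eventually.of_forall fun k =>
    div_le_div_of_nonneg_right ((l k).join_info_ge_right (l' k)) (S.F k).pos.le)

/-- conditional entropies decrease with the window -/
theorem h_anti_winK (hc : c ≤ c') (hl : DMK s R c l) (hl' : IsKapK s R c' l') (X Y : S.L) :
    h (up1 l' X) (up1 l' Y) ≤ h (up1 l X) (up1 l Y) := by
  rw [hl'.h_eq (IsKapK.join hc hl hl')]
  exact h_join l l' X Y

theorem H_anti_winK (hc : c ≤ c') (hl : DMK s R c l) (hl' : IsKapK s R c' l') (X : S.L) :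
    H (up1 l' X) ≤ H (up1 l X) := hl'.H_le (hl.mono hc) X

/-- the loss is at most the difference of the informations -/
theorem H_win_geK (hc : c ≤ c') (hl : DMK s R c l) (hl' : IsKapK s R c' l') (X : S.L) :
    H (up1 l X) - (l'.info - l.info) ≤ H (up1 l' X) := by
  have hj := IsKapK.join hc hl hl'
  rw [hl'.H_eq hj]
  have h1 := H_join_ge l l' (DMc.info_UB hj.1) (DMc.info_UB hl.1) X
  have h2 : (l.join l').info ≤ l'.info := hl'.2.2 _ hj.1 hj.2.1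
  linarith

theorem h_win_geK (hc : c ≤ c') (hl : DMK s R c l) (hl' : IsKapK s R c' l') (X Y : S.L) :
    h (up1 l X) (up1 l Y) - (l'.info - l.info) ≤ h (up1 l' X) (up1 l' Y) := by
  have h1 : h (up1 l X) (up1 l Y) = H (up1 l X ⊔ up1 l Y) - H (up1 l Y) := rfl
  have h2 : h (up1 l' X) (up1 l' Y) = H (up1 l' X ⊔ up1 l' Y) - H (up1 l' Y) := rfl
  rw [h1, h2, ← up1_sup, ← up1_sup]
  have h3 := H_win_geK hc hl hl' (X ⊔ Y)
  have h4 := H_anti_winK hc hl hl' Y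
  linarith

end

/-- RIGHT CONTINUITY of the information of the maximal K-label -/
theorem info_rightK [Finite ι] (s : MSys S M E ι) (R : ∀ k, Setoid (S.F k).Ω) (c : ℝ) {ε : ℝ} (hε : 0 < ε) :
    ∃ δ : ℝ, 0 < δ ∧ ∀ c', c ≤ c' → c' < c + δ → ∀ l l' : Lab S, IsKapK s R c l → IsKapK s R c' l' →
      l'.info ≤ l.info + ε := by
  by_contra hcon
  push Not at hcon
  have h1 : ∀ j : ℕ, ∃ c' : ℝ, c ≤ c' ∧ c' < c + 1 / ((j : ℝ) + 1) / (2 * ((E 0 : ℝ) + 1)) ∧ ∃ l l' : Lab S,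
      IsKapK s R c l ∧ IsKapK s R c' l' ∧ l.info + ε < l'.info := by
    intro j
    obtain ⟨c', a, b, l, l', d, e, f⟩ := hcon (1 / ((j : ℝ) + 1) / (2 * ((E 0 : ℝ) + 1))) (by positivity)
    exact ⟨c', a, b, l, l', d, e, f⟩
  choose c' hc1 hc2 l l' hl hl' hlt using h1
  have hk := kapK_is s R c
  have hinfo : ∀ j, (kapK s R c).info = (l j).info := fun j =>
    le_antisymm ((hl j).2.2 _ hk.1 hk.2.1) (hk.2.2 _ (hl j).1 (hl j).2.1)
  have hE : (0 : ℝ) ≤ E 0 := Nat.cast_nonneg _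
  have h0 : Tendsto (fun j : ℕ => (1 / ((j : ℝ) + 1))) atTop (𝓝 0) := tendsto_one_div_add_atTop_nhds_zero_nat (𝕜 := ℝ)
  have hG : ∀ j : ℕ, ∀ᶠ k in UF, (∀ i, (l' j k).leak (s.cnd c i k) / (S.F k).n ≤ 1 / ((j : ℝ) + 1)) ∧
      (KC R).P k (l' j k) ∧ (kapK s R c).info + ε ≤ (l' j k).info / (S.F k).n := by
    intro j
    have hj : (0 : ℝ) < 1 / ((j : ℝ) + 1) := by positivity
    have hj4 : (0 : ℝ) < 1 / ((j : ℝ) + 1) / 4 := by positivity
    have h3 : ∀ᶠ k in UF, ∀ i, (l' j k).leak (s.cnd c i k) / (S.F k).n ≤ 1 / ((j : ℝ) + 1) := by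
      rw [eventually_all]
      intro i
      filter_upwards [leak_win s i (hc1 j) hj4, ((hl' j).1 i).eventually (gt_mem_nhds hj4)] with k a b
      have hn := (S.F k).pos
      rw [div_lt_iff₀ hn] at b
      rw [div_le_iff₀ hn]
      refine (a (l' j k)).trans ?_
      have h4 : (E 0 : ℝ) * (c' j - c) ≤ 1 / ((j : ℝ) + 1) / 2 := by
        have h5 : c' j - c ≤ 1 / ((j : ℝ) + 1) / (2 * ((E 0 : ℝ) + 1)) := by linarith [hc2 j]
        calc (E 0 : ℝ) * (c' j - c) ≤ ((E 0 : ℝ) + 1) * (1 / ((j : ℝ) + 1) / (2 * ((E 0 : ℝ) + 1))) := by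
              refine mul_le_mul (by linarith) h5 (by linarith [hc1 j]) (by linarith)
          _ = 1 / ((j : ℝ) + 1) / 2 := by
              field_simp
      have h6 := mul_le_mul_of_nonneg_right h4 hn.le
      nlinarith
    filter_upwards [h3, (hl' j).2.1, eventually_gt_of_lt_ul (DMc.info_UB (hl' j).1) (hlt j)] with k a b d
    rw [hinfo j]
    exact ⟨a, b, d.le⟩
  obtain ⟨y, J, hJ, hy, hG'⟩ := dia' (X := fun k => FLab (S.F k)) l' (fun j k x =>
      (∀ i, x.leak (s.cnd c i k) / (S.F k).n ≤ 1 / ((j : ℝ) + 1)) ∧ (KC R).P k x ∧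
      (kapK s R c).info + ε ≤ x.info / (S.F k).n) hG
  have h0' : Tendsto (fun k => 1 / ((J k : ℝ) + 1)) UF (𝓝 0) := tendsto_one_div_add_atTop_nhds_zero_nat.comp hJ
  have hDM : s.DMc c y := by
    intro i
    refine tendsto_of_tendsto_of_tendsto_of_le_of_le' tendsto_const_nhds h0' ?_ ?_
    · exact Eventually.of_forall fun k => div_nonneg ((y k).leak_nonneg _) (S.F k).pos.le
    · filter_upwards [hG'] with k hk using hk.1 i
  have hCy : (KC R).ev y := by filter_upwards [hG'] with k hk using hk.2.1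
  have h7 := hk.2.2 y hDM hCy
  have h8 : (kapK s R c).info + ε ≤ Lab.info y := by
    have h9 := ul_mono (UB_const _) (DMc.info_UB hDM) (by
      filter_upwards [hG'] with k hk using hk.2.2 :
        ∀ᶠ k in UF, (kapK s R c).info + ε ≤ (y k).info / (S.F k).n)
    rwa [ul_const] at h9
  linarith

/-- RIGHT CONTINUITY of the entropies over the maximal K-label, uniformly in the variable -/
theorem H_rightK [Finite ι] (s : MSys S M E ι) (R : ∀ k, Setoid (S.F k).Ω) (c : ℝ) {ε : ℝ} (hε : 0 < ε) :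
    ∃ δ : ℝ, 0 < δ ∧ ∀ c', c ≤ c' → c' < c + δ → ∀ l l' : Lab S, IsKapK s R c l → IsKapK s R c' l' → ∀ X : S.L,
      H (up1 l' X) ≤ H (up1 l X) ∧ H (up1 l X) - ε ≤ H (up1 l' X) := by
  obtain ⟨δ, hδ, h⟩ := info_rightK s R c hε
  refine ⟨δ, hδ, fun c' a b l l' hl hl' X => ⟨H_anti_winK a hl.dmk hl' X, ?_⟩⟩
  have h1 := H_win_geK a hl.dmk hl' X
  have h2 := h c' a b l l' hl hl'
  linarith

/-- RIGHT CONTINUITY of the conditional entropies -/
theorem h_rightK [Finite ι] (s : MSys S M E ι) (R : ∀ k, Setoid (S.F k).Ω) (c : ℝ) {ε : ℝ} (hε : 0 < ε) :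
    ∃ δ : ℝ, 0 < δ ∧ ∀ c', c ≤ c' → c' < c + δ → ∀ l l' : Lab S, IsKapK s R c l → IsKapK s R c' l' →
      ∀ X Y : S.L,
      h (up1 l' X) (up1 l' Y) ≤ h (up1 l X) (up1 l Y) ∧ h (up1 l X) (up1 l Y) - ε ≤ h (up1 l' X) (up1 l' Y) := by
  obtain ⟨δ, hδ, h⟩ := info_rightK s R c hε
  refine ⟨δ, hδ, fun c' a b l l' hl hl' X Y => ⟨h_anti_winK a hl.dmk hl' X Y, ?_⟩⟩
  have h1 := h_win_geK a hl.dmk hl' X Y
  have h2 := h c' a b l l' hl hl'
  linarith

/-- RIGHT CONTINUITY of the K-volume -/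
theorem vol_rightK [Finite ι] (s : MSys S M E ι) (R : ∀ k, Setoid (S.F k).Ω) (D : ℕ) (c : ℝ) {ε : ℝ} (hε : 0 < ε) :
    ∃ δ : ℝ, 0 < δ ∧ ∀ c', c ≤ c' → c' < c + δ → volK s R D c' ≤ volK s R D c ∧
      volK s R D c - ε ≤ volK s R D c' := by
  suffices hs : ∃ δ : ℝ, 0 < δ ∧ ∀ c', c ≤ c' → c' < c + δ → volK s R D c - ε ≤ volK s R D c' by
    obtain ⟨δ, hδ, h⟩ := hs
    exact ⟨δ, hδ, fun c' a b => ⟨volK_anti s R D a, h c' a b⟩⟩
  by_contra hcon
  push Not at hcon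
  have h1 : ∀ j : ℕ, ∃ c' : ℝ, c ≤ c' ∧ c' < c + 1 / ((j : ℝ) + 1) / (2 * ((E 0 : ℝ) + 1)) ∧
      volK s R D c' < volK s R D c - ε := by
    intro j
    obtain ⟨c', a, b, d⟩ := hcon (1 / ((j : ℝ) + 1) / (2 * ((E 0 : ℝ) + 1))) (by positivity)
    exact ⟨c', a, b, d⟩
  choose c' hc1 hc2 hlt using h1
  have h2 : ∀ j, ∃ x, IsCanK s R D (c' j) x := fun j => exists_canK s R D (c' j)
  choose x hx using h2
  have hE : (0 : ℝ) ≤ E 0 := Nat.cast_nonneg _
  set W : ℝ := M - (volK s R D c - ε) with hW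
  obtain ⟨y, J, hJ, hy, hP⟩ := Gau.diagfK (gaq s.Q D) (KC R) (s.cnd c) x (fun _ k z =>
      W ≤ ∑ ω, z.l.T.μ ω * Pool.Agent.Helper14.MC.gx s.Q k (z.l.p.π ω) (z.g ω)) (by
    intro j
    have hj : (0 : ℝ) < 1 / ((j : ℝ) + 1) := by positivity
    have hj4 : (0 : ℝ) < 1 / ((j : ℝ) + 1) / 4 := by positivity
    have hv : W < ul (Pool.Agent.Helper14.MC.vx s.Q (x j)) := by
      have a1 := hlt j
      rw [volK_eq' (hx j).1, Pool.Agent.Helper14.MC.vol_eq] at a1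
      linarith
    have hl : ∀ᶠ k in UF, ∀ i, ∀ l : FLab (S.F k), l.leak (s.cnd c i k) ≤
        l.leak (s.cnd (c' j) i k) + (E 0 * (c' j - c) + 1 / ((j : ℝ) + 1) / 4) * (S.F k).n := by
      rw [eventually_all]
      exact fun i => leak_win s i (hc1 j) hj4
    filter_upwards [(hx j).1.1.1 _ hj4, hl, eventually_gt_of_lt_ul (Pool.Agent.Helper14.MC.vx_UB (hx j).1.1.1) hv,
      (hx j).1.1.2] with k a b d e
    have hn := (S.F k).pos
    have a' := Gau.Admf.mono (gaq s.Q D) (show 1 / ((j : ℝ) + 1) / 4 ≤ 1 / ((j : ℝ) + 1) by linarith) a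
    refine ⟨⟨fun i => ?_, a'.2⟩, e, d.le⟩
    refine (b i (x j k).l).trans ?_
    have h3 := a.1 i
    have h4 : (E 0 : ℝ) * (c' j - c) ≤ 1 / ((j : ℝ) + 1) / 2 := by
      have h5 : c' j - c ≤ 1 / ((j : ℝ) + 1) / (2 * ((E 0 : ℝ) + 1)) := by linarith [hc2 j]
      calc (E 0 : ℝ) * (c' j - c) ≤ ((E 0 : ℝ) + 1) * (1 / ((j : ℝ) + 1) / (2 * ((E 0 : ℝ) + 1))) := by
            refine mul_le_mul (by linarith) h5 (by linarith [hc1 j]) (by linarith)
        _ = 1 / ((j : ℝ) + 1) / 2 := by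
            field_simp
    have h6 := mul_le_mul_of_nonneg_right h4 hn.le
    nlinarith)
  obtain ⟨x0, hx0⟩ := exists_canK s R D c
  have h7 := volK_le hx0.1 hy
  rw [← volK_eq' hx0.1, Pool.Agent.Helper14.MC.vol_eq] at h7
  have h8 : W ≤ ul (Pool.Agent.Helper14.MC.vx s.Q y) := by
    have h9 := ul_mono (UB_const W) (Pool.Agent.Helper14.MC.vx_UB hy.1) hP
    rwa [ul_const] at h9
  linarith

/-! ### the numbers `h(y_r | A, kappa^K_c)` -/

/-- `h(y_r | A, kappa^K_c)` -/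
def gcK [Finite ι] (s : MSys S M E ι) (R : ∀ k, Setoid (S.F k).Ω) {p : ℕ} (y : S.VV p) (A : S.L) (c r : ℝ) : ℝ :=
  h (up1 (kapK s R c) (y.dg r)) (up1 (kapK s R c) A)

section gck
variable [Finite ι] (s : MSys S M E ι) (R : ∀ k, Setoid (S.F k).Ω) {p : ℕ} (y : S.VV p) (A : S.L)

variable {s R} in
theorem gcK_eq {c : ℝ} (r : ℝ) {l : Lab S} (hl : IsKapK s R c l) :
    h (up1 l (y.dg r)) (up1 l A) = gcK s R y A c r := hl.h_eq (kapK_is s R c) _ _

theorem gcK_sub (c : ℝ) {a b : ℝ} (hab : a ≤ b) :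
    gcK s R y A c b - gcK s R y A c a = h (up1 (kapK s R c) (y.dg b)) (up1 (kapK s R c) (y.dg a ⊔ A)) :=
  inc_eq _ y A hab

theorem gcK_inc (c : ℝ) {a b : ℝ} (hab : a ≤ b) :
    0 ≤ gcK s R y A c b - gcK s R y A c a ∧ gcK s R y A c b - gcK s R y A c a ≤ p * (b - a) := by
  rw [gcK_sub s R y A c hab]
  refine ⟨h_nonneg _ _, ?_⟩
  have h1 : h (up1 (kapK s R c) (y.dg b)) (up1 (kapK s R c) (y.dg a ⊔ A)) ≤
      h (up1 (kapK s R c) (y.dg b)) (up1 (kapK s R c) (y.dg a)) := h_anti (up1_mono _ le_sup_left)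
  exact h1.trans ((h_up1_le _ _ _).trans (y.h_dg_dg hab))

theorem gcK_anti {c c' : ℝ} (hc : c ≤ c') {a b : ℝ} (hab : a ≤ b) :
    gcK s R y A c' b - gcK s R y A c' a ≤ gcK s R y A c b - gcK s R y A c a := by
  rw [gcK_sub s R y A c hab, gcK_sub s R y A c' hab]
  exact h_anti_winK hc (kapK_is s R c).dmk (kapK_is s R c') _ _

theorem gcK_nonneg (c r : ℝ) : 0 ≤ gcK s R y A c r := h_nonneg _ _

theorem gcK_zero (c : ℝ) : gcK s R y A c 0 = 0 := by
  have h1 : h (up1 (kapK s R c) (y.dg 0)) (up1 (kapK s R c) A) ≤ h (y.dg 0) A := h_up1_le _ _ _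
  rw [y.dg_nonpos le_rfl] at h1
  have h2 : h (⊥ : S.L) A = 0 := h_zero bot_le
  have h3 := gcK_nonneg s R y A c 0
  unfold gcK at h3 ⊢
  rw [y.dg_nonpos le_rfl] at h3 ⊢
  linarith

theorem gcK_right (c : ℝ) {ε : ℝ} (hε : 0 < ε) :
    ∃ δ : ℝ, 0 < δ ∧ ∀ c', c ≤ c' → c' < c + δ → ∀ {p : ℕ} (y : S.VV p) (A : S.L) (r : ℝ),
      gcK s R y A c' r ≤ gcK s R y A c r ∧ gcK s R y A c r - ε ≤ gcK s R y A c' r := by
  obtain ⟨δ, hδ, h⟩ := h_rightK s R c hε
  exact ⟨δ, hδ, fun c' a b _ y A r => h c' a b _ _ (kapK_is s R c) (kapK_is s R c') _ _⟩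

/-- the family of `helper75` from a depth -/
theorem fam_ofK (y : S.VV 1) {η : ℝ → ℝ} {C : ℝ} (hC : 0 < C)
    (hm : MonotoneOn η (Set.Icc 0 C)) (h0 : η 0 = 0) (h1 : η C = 1)
    (hr : ∀ c ∈ Set.Ico (0 : ℝ) C, ContinuousWithinAt η (Set.Ici c) c) :
    Pool.Agent.Helper75.MX.Fam η (gcK s R y A) C where
  hC := hC
  mono := hm
  η0 := h0
  ηC := h1
  rc := hr
  inc := fun c _ a b _ hab _ => by
    have h2 := gcK_inc s R y A c hab
    rw [Nat.cast_one, one_mul] at h2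
    exact h2
  anti := fun c _ c' _ hcc a b _ hab _ => gcK_anti s R y A hcc hab

end gck

end

end Pool.Agent.Helper89.RAK
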