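import Pool.Agent.Helper89.RAK.Idp
import Pool.Agent.Helper89.RAK.Rc
import Pool.Agent.Helper89.RAT.Fam

/-! THE LEVEL OF ONE COORDINATE which is known by the K-labels at a window, given the other coordinates:
`etaK c = 1 - volK c + H (P_1 | kappa^K_c)`. It is the mean exponent of the gradient of the canonical K-form in the
direction of the coordinate (`etaK_eq`), it is monotone and right continuous in the window, zero at the window `0` if the
K-hull is trivial, one at the window `1`. -/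

set_option autoImplicit false

namespace Pool.Agent.Helper89.RAK

open Finset Filter Topology Matrix Pool.Agent.Helper69.RK Pool.Agent.Helper31.EC Pool.Agent.Helper31.EC.Sp
open Pool.Agent.Helper40.EL Pool.Agent.Helper89.LX Pool.Agent.Helper3.LF Pool.Agent.Helper84.MT Pool.Agent.Helper26.MZ
open Pool.Agent.Helper95.LF
open Pool.Agent.Helper14.MC (gx vx vol_eq vx_UB vx_nonneg)
open Pool.Agent.Helper89.RAT (zx zx_le_one zx_nonneg zx_le_vx Q_dg_eq H_Q_eq)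
open Pool.Agent.Helper75.MX (Fam gm crit Good)

noncomputable section

variable {S : Sp} {d D : ℕ} {E : ℕ → ℕ} {ι : Type}

/-- the level of one coordinate, given the others, at the window `c` -/
def etaK [Finite ι] (s : MSys S (d + 1) E ι) (R : ∀ k, Setoid (S.F k).Ω) (D : ℕ) (P : S.VV d) (c : ℝ) : ℝ :=
  1 - volK s R D c + H (up1 (kapK s R c) (P.dg 1))

theorem etaK_can [Finite ι] {s : MSys S (d + 1) E ι} {R : ∀ k, Setoid (S.F k).Ω} {P : S.VV d} {c : ℝ}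
    {x : ∀ k, FD (S.F k) (Mon (d + 1) D)} (hx : IsCanK s R D c x) :
    etaK s R D P c = 1 - vol s.Q D x + H (up1 (lb x) (P.dg 1)) := by
  unfold etaK
  rw [← volK_eq' hx.1, IsKapK.H_eq (kapK_is s R c) hx.2]

/-- volumes are small at large windows -/
theorem volK_le_win [Finite ι] (s : MSys S (d + 1) E ι) {R : ∀ k, Setoid (S.F k).Ω} (hlit : Lit R s.Q)
    (hD : 1 ≤ D) {c : ℝ} (h0 : 0 ≤ c) (h1 : c < 1) : volK s R D c ≤ (1 - c) * (d + 1) := by
  obtain ⟨x, hx⟩ := exists_canK s R D c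
  set Z : ZM s := s.mkz h0 h1 hx.2.1 with hZ
  obtain ⟨y, hy⟩ := exists_canK Z.sys (zR Z R) D 0
  have hx' : IsCanK s R D (Z.c + Z.e * 0) x := by
    rw [mul_zero, add_zero]
    exact hx
  have hk : IsKapK s R c Z.l := hx.2.cL h0 h1.le hlit
  have hv := volK_zoom Z hk.2.1 hD le_rfl hy.1 hx'.1
  have h2 := volK_le_M Z.sys (zR Z R) D 0
  have h4 := volK_eq' hy.1
  have h5 := volK_eq' hx.1
  have h3 : Z.e = 1 - c := rfl
  rw [← h3, h5, hv, ← h4]
  push_cast at h2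
  exact mul_le_mul_of_nonneg_left h2 Z.e_pos.le

theorem volK_one_le [Finite ι] (s : MSys S (d + 1) E ι) {R : ∀ k, Setoid (S.F k).Ω} (hlit : Lit R s.Q)
    (hD : 1 ≤ D) : volK s R D 1 ≤ 0 := by
  apply le_of_forall_pos_le_add
  intro ε hε
  have hd : (0 : ℝ) < (d + 1 : ℝ) := by positivity
  set t : ℝ := min 1 (ε / (d + 1)) with ht
  have ht0 : 0 < t := lt_min one_pos (by positivity)
  have ht1 : t ≤ 1 := min_le_left _ _
  have h1 := (volK_anti s R D (show 1 - t ≤ 1 by linarith)).trans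
    (volK_le_win s hlit hD (c := 1 - t) (by linarith) (by linarith))
  have h2 : t * (d + 1) ≤ ε := by
    have : t ≤ ε / (d + 1) := min_le_right _ _
    rwa [le_div_iff₀ hd] at this
  have h3 : (1 - (1 - t)) * ((d : ℝ) + 1) = t * (d + 1) := by ring
  rw [h3] at h1
  linarith

/-- the level is right continuous -/
theorem etaK_right [Finite ι] (s : MSys S (d + 1) E ι) (R : ∀ k, Setoid (S.F k).Ω) (D : ℕ) (P : S.VV d) (c : ℝ) :
    ContinuousWithinAt (etaK s R D P) (Set.Ici c) c := by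
  rw [Metric.continuousWithinAt_iff]
  intro ε hε
  have hε2 : 0 < ε / 2 := by linarith
  obtain ⟨δ, hδ, h⟩ := vol_rightK s R D c hε2
  obtain ⟨δ', hδ', h'⟩ := H_rightK s R c hε2
  refine ⟨min δ δ', lt_min hδ hδ', fun {c'} hc hd => ?_⟩
  have hc0 : c ≤ c' := hc
  rw [Real.dist_eq, abs_of_nonneg (sub_nonneg.mpr hc0)] at hd
  obtain ⟨a1, a2⟩ := h c' hc0 (by linarith [min_le_left δ δ'])
  obtain ⟨b1, b2⟩ := h' c' hc0 (by linarith [min_le_right δ δ']) _ _ (kapK_is s R c) (kapK_is s R c') (P.dg 1)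
  unfold etaK
  rw [Real.dist_eq, abs_lt]
  constructor <;> linarith

/-- the point is finer than its coordinates -/
theorem P_le (s : MSys S (d + 1) E ι) {j : Fin (d + 1)} {P : S.VV d}
    (hP : ∀ k ω a, P.v k ω a = s.Q.v k ω (j.succAbove a)) (r : ℝ) : P.dg r ≤ s.Q.dg r := by
  apply VV.dg_le_dg P s.Q r r (fun _ _ => True) Typ_true (fun _ => 1) (S.Sub_const zero_le_one)
  refine Eventually.of_forall fun k ω ω' _ _ _ _ _ hd i => ?_
  rw [hP, hP, one_mul]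
  exact hd _

theorem H_P_le [Finite ι] (s : MSys S (d + 1) E ι) {R : ∀ k, Setoid (S.F k).Ω} {j : Fin (d + 1)} {P : S.VV d}
    (hP : ∀ k ω a, P.v k ω a = s.Q.v k ω (j.succAbove a)) {c : ℝ} (hD : 1 ≤ D)
    {x : ∀ k, FD (S.F k) (Mon (d + 1) D)} (hx : IsCanK s R D c x) : H (up1 (lb x) (P.dg 1)) ≤ vol s.Q D x := by
  refine le_trans ?_ (Pool.Agent.Helper14.MC.cnt_vol s.Q hD x hx.1.1.1)
  exact H_mono (up1_mono _ (P_le s hP 1))

theorem volK_one [Finite ι] (s : MSys S (d + 1) E ι) {R : ∀ k, Setoid (S.F k).Ω} (hlit : Lit R s.Q)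
    (hD : 1 ≤ D) : volK s R D 1 = 0 := by
  apply le_antisymm (volK_one_le s hlit hD)
  obtain ⟨x, hx⟩ := exists_canK s R D 1
  rw [volK_eq' hx.1]
  exact (H_nonneg _).trans (Pool.Agent.Helper14.MC.cnt_vol s.Q hD x hx.1.1.1)

section lev

variable [Finite ι] {s : MSys S (d + 1) E ι} {R : ∀ k, Setoid (S.F k).Ω} {j : Fin (d + 1)} {P : S.VV d}
  (hP : ∀ k ω a, P.v k ω a = s.Q.v k ω (j.succAbove a))

include hP

theorem etaK_one (hD : 1 ≤ D) (hlit : Lit R s.Q) : etaK s R D P 1 = 1 := by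
  obtain ⟨x, hx⟩ := exists_canK s R D 1
  have h1 := H_P_le s hP hD hx
  rw [← volK_eq' hx.1, volK_one s hlit hD] at h1
  have h2 : H (up1 (lb x) (P.dg 1)) = 0 := le_antisymm h1 (H_nonneg _)
  rw [etaK_can hx, ← volK_eq' hx.1, volK_one s hlit hD, h2]
  ring

end lev

section lin

variable [Finite ι] {g : ℕ} {s : MSys S (d + 1) (lin g) ι} {R : ∀ k, Setoid (S.F k).Ω} {j : Fin (d + 1)} {P : S.VV d}
  (hD : 1 ≤ D) (hst : STKm D d (lin g) ι) (hlit : Lit R s.Q)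
  (hP : ∀ k ω a, P.v k ω a = s.Q.v k ω (j.succAbove a))

include hD hlit hP

theorem etaK_le {c : ℝ} {x : ∀ k, FD (S.F k) (Mon (d + 1) D)} (hx : IsCanK s R D c x) :
    etaK s R D P c ≤ zx s.Q j x := by
  rw [etaK_can hx]
  have := vzK hD s hlit hx.1 j P hP
  linarith

theorem etaK_le_one {c : ℝ} : etaK s R D P c ≤ 1 := by
  obtain ⟨x, hx⟩ := exists_canK s R D c
  exact (etaK_le hD hlit hP hx).trans (zx_le_one j hx.1.1.1)

include hst

/-- THE IDENTITY: the level is the mean exponent of the gradient -/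
theorem etaK_eq {c : ℝ} (h0 : 0 ≤ c) (h1 : c < 1) {x : ∀ k, FD (S.F k) (Mon (d + 1) D)} (hx : IsCanK s R D c x) :
    etaK s R D P c = zx s.Q j x := by
  apply le_antisymm (etaK_le hD hlit hP hx)
  have h2 := idPK_win hD hst s hlit h0 h1 hx j P hP
  rw [etaK_can hx]
  linarith

theorem etaK_nonneg {c : ℝ} (h0 : 0 ≤ c) (h1 : c < 1) : 0 ≤ etaK s R D P c := by
  obtain ⟨x, hx⟩ := exists_canK s R D c
  rw [etaK_eq hD hst hlit hP h0 h1 hx]
  exact zx_nonneg j hx.1.1.1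


/-- the level is monotone in the window -/
theorem etaK_mono : MonotoneOn (etaK s R D P) (Set.Icc 0 1) := by
  intro a ha b hb hab
  rcases lt_or_ge b 1 with h1 | h1
  · obtain ⟨x, hx⟩ := exists_canK s R D a
    obtain ⟨y, hy⟩ := exists_canK s R D b
    rw [etaK_eq hD hst hlit hP ha.1 (hab.trans_lt h1) hx, etaK_eq hD hst hlit hP hb.1 h1 hy]
    exact zxK_le hy.1 (adfK_mono hab hx.1.1) j
  · have h2 : b = 1 := le_antisymm hb.2 h1
    rw [h2, etaK_one hP hD hlit]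
    exact etaK_le_one hD hlit hP

/-- the level is zero at the window `0` if the K-hull is trivial -/
theorem etaK_zero (hv : (d + 1 : ℝ) ≤ volK s R D 0) : etaK s R D P 0 = 0 := by
  apply le_antisymm _ (etaK_nonneg hD hst hlit hP le_rfl one_pos)
  obtain ⟨x, hx⟩ := exists_canK s R D 0
  rw [etaK_eq hD hst hlit hP le_rfl one_pos hx]
  have h1 := zx_le_vx j hx.1.1.1
  rw [volK_eq' hx.1] at hv
  push_cast at h1
  linarith

/-- THE FAMILY OF THE NUMBERS -/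
theorem fam_sysK (hv : (d + 1 : ℝ) ≤ volK s R D 0) (y : S.VV 1) :
    Fam (etaK s R D P) (gcK s R y (P.dg 1)) 1 :=
  fam_ofK s R (P.dg 1) y one_pos (etaK_mono hD hst hlit hP) (etaK_zero hD hst hlit hP hv) (etaK_one hP hD hlit)
    (fun c _ => etaK_right s R D P c)

/-- the other coordinates are full at the window `0` of a system with trivial K-hull -/
theorem H_P_zeroK (hv : (d + 1 : ℝ) ≤ volK s R D 0) {x : ∀ k, FD (S.F k) (Mon (d + 1) D)}
    (hx : IsCanK s R D 0 x) : H (up1 (lb x) (P.dg 1)) = d := by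
  have h1 := etaK_zero hD hst hlit hP hv
  have h2 := volK_le_M s R D 0
  push_cast at h2
  rw [etaK_can hx, ← volK_eq' hx.1] at h1
  linarith

omit hD hst hlit in
/-- THE POINT OVER `kappa^K_c`: the deficit of the coordinate -/
theorem gap_eqK {y : S.VV 1} (hy : ∀ k ω i, y.v k ω i = s.Q.v k ω j) {c : ℝ}
    {x : ∀ k, FD (S.F k) (Mon (d + 1) D)} (hx : IsCanK s R D c x) :
    vol s.Q D x - H (up1 (lb x) (s.Q.dg 1)) = 1 - etaK s R D P c - gcK s R y (P.dg 1) c 1 := by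
  have h1 : h (up1 (lb x) (y.dg 1)) (up1 (lb x) (P.dg 1)) = gcK s R y (P.dg 1) c 1 := gcK_eq y (P.dg 1) 1 hx.2
  rw [H_Q_eq (lb x) hP hy, etaK_can hx, h1]
  ring

/-- **THE TYPICAL LEVELS OF A SYSTEM WHICH IS NOT FULL**, for K-labels -/
theorem typ_levelK (hv : (d + 1 : ℝ) ≤ volK s R D 0) {y : S.VV 1} (hy : ∀ k ω i, y.v k ω i = s.Q.v k ω j)
    {x : ∀ k, FD (S.F k) (Mon (d + 1) D)} (hx : IsCanK s R D 0 x) {θ : ℝ}
    (hθ : H (up1 (lb x) (s.Q.dg 1)) < d + θ) (hθ1 : θ ≤ 1) {κ : Type*} [Countable κ] {L : κ → ℝ → ℝ}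
    (hL : ∀ i, MonotoneOn (L i) (Set.Icc 0 1)) {Qp : ℝ → Prop} (hQ : ∀ᵐ r, r ∈ Set.Ioo (0 : ℝ) 1 → Qp r) :
    ∃ r ∈ Set.Ioo (0 : ℝ) 1, Good (etaK s R D P) (gcK s R y (P.dg 1)) 1 r ∧ Qp r ∧
      (∀ x ∈ Set.Icc (0 : ℝ) r, ∫ t in x..r, gm (etaK s R D P) (gcK s R y (P.dg 1)) 1 t ≤ θ * (r - x)) ∧
      gm (etaK s R D P) (gcK s R y (P.dg 1)) 1 r ≤ θ ∧
      (∃ k, 0 ≤ k ∧ HasDerivAt (crit (etaK s R D P) 1) k r) ∧
      (∀ i, ∃ y, 0 ≤ y ∧ HasDerivAt (fun x => L i (crit (etaK s R D P) 1 x)) y r) ∧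
      ((∀ᶠ x in 𝓝 r, crit (etaK s R D P) 1 x = crit (etaK s R D P) 1 r) ∨
        ((∀ x ∈ Set.Ioo (0 : ℝ) r, crit (etaK s R D P) 1 x < crit (etaK s R D P) 1 r) ∧
          ∀ x ∈ Set.Ioo r 1, crit (etaK s R D P) 1 r < crit (etaK s R D P) 1 x)) := by
  refine (fam_sysK hD hst hlit hP hv y).typical ?_ hθ1 hL hQ
  rw [gcK_zero, sub_zero]
  have h1 : h (up1 (lb x) (y.dg 1)) (up1 (lb x) (P.dg 1)) = gcK s R y (P.dg 1) 0 1 := gcK_eq y (P.dg 1) 1 hx.2
  have h2 := H_Q_eq (lb x) hP hy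
  have h3 := H_P_zeroK hD hst hlit hP hv hx
  rw [h1, h3] at h2
  linarith

end lin

end

end Pool.Agent.Helper89.RAK
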