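import Pool.Agent.Helper17.KL.Can
import Pool.Agent.Helper87.NSL.Costr
import Pool.Agent.Helper89.RAT.Dom

/-! K-LABELS (leak exactly zero at the resolution `R` of the point): a form which is optimal for the K-labels dominates
every second form which is a function of the label and of a class (few classes), if the class is a literal function of
the label and of `R`. -/

set_option autoImplicit false

namespace Pool.Agent.Helper89.RAK

open Finset Filter Topology Matrix Pool.Agent.Helper69.RK Pool.Agent.Helper31.EC Pool.Agent.Helper31.EC.Sp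
open Pool.Agent.Helper40.EL Pool.Agent.Helper89.LX Pool.Agent.Helper3.LF Pool.Agent.Helper84.MT
open Pool.Agent.Helper95.LF (PdM)
open Pool.Agent.Helper89.RAT

noncomputable section

/-- a function of the label and of `B` does not create a leak at `B` -/
theorem addW_kz {F : FSp} (l : FLab F) (W : Setoid l.T.Ω) (R : Setoid F.Ω) (h0 : l.leak (fc R) = 0)
    (hW : ∀ ω ω', l.T.μ ω ≠ 0 → l.T.μ ω' ≠ 0 → l.V ω ω' → l.T.Z ω ω' → R (l.p.π ω) (l.p.π ω') → W ω ω') :
    (l.addW W).leak (fc R) = 0 := by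
  have h1 := l.addW_leak_le W (fc R)
  have h2 : h (fc W : FL l.T) (l.v ⊔ l.p.map (fc R)) = 0 := by
    have e1 : l.v ⊔ l.p.map (fc R) = fc (l.V ⊓ Setoid.comap l.p.π R) := rfl
    rw [e1]
    apply h_zero
    exact fc_le fun ω ω' a b c d => hW ω ω' a b d.1 c d.2
  rw [h0, h2, add_zero] at h1
  exact le_antisymm h1 (FLab.leak_nonneg _ _)

section gen

variable {S : Sp} {ι : Type} [Fintype ι] [DecidableEq ι] (Φ : Gau S ι) {κ : Type}

/-- SELF-DOMINATION: the form dominates every second form which is a function of the label and of a class (few classes;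
the class is a function of the label and of `R`) -/
def Slf (R : ∀ k, Setoid (S.F k).Ω) (x : ∀ k, FD (S.F k) ι) : Prop :=
  ∀ (j : ∀ k, (x k).l.T.Ω → ℕ) (J : ℕ), (∀ k ω, j k ω ≤ J) →
    (∀ k ω ω', (x k).l.T.μ ω ≠ 0 → (x k).l.T.μ ω' ≠ 0 → (x k).l.V ω ω' → (x k).l.T.Z ω ω' →
      R k ((x k).l.p.π ω) ((x k).l.p.π ω') → j k ω = j k ω') →
    ∀ g2 : ∀ k, (x k).l.T.Ω → Matrix ι ι ℝ,
    (∀ k ω ω', (x k).l.T.μ ω ≠ 0 → (x k).l.T.μ ω' ≠ 0 → (x k).l.V ω ω' → (x k).l.T.Z ω ω' → j k ω = j k ω' →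
      g2 k ω = g2 k ω') →
    (∀ᶠ k in UF, ∀ ω, (x k).l.T.μ ω ≠ 0 → Cpd (Φ.cp k) (g2 k ω)) →
    (∀ η : ℝ, 0 < η → ∀ᶠ k in UF,
      (x k).l.T.pb (fun ω => ¬ Φ.φ k ((x k).l.p.π ω) (g2 k ω) ≤ 2 ^ (η * (S.F k).n)) ≤ η) → ∀ e : ℝ, 0 < e →
    Tendsto (fun k => (x k).l.T.pb (fun ω => ¬ ∀ v, qf (g2 k ω) v ≤ 2 ^ (e * (S.F k).n) * qf ((x k).g ω) v))
      UF (𝓝 0)

/-- optimal forms -/
theorem slf_opt {A : κ → Part S} {x : ∀ k, FD (S.F k) ι} (hx : Φ.Optf A x) (R : ∀ k, Setoid (S.F k).Ω) :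
    Slf Φ R x := fun j J hj _ g2 hm hc hφ e he => dom_cls Φ hx j J hj g2 hm hc hφ e he

/-- forms which are optimal for the K-labels -/
theorem slf_K {A : κ → Part S} {x : ∀ k, FD (S.F k) ι} {R : ∀ k, Setoid (S.F k).Ω}
    (hx : Φ.OptfK (LC.kz fun k => fc (R k)) A x) : Slf Φ R x := by
  intro j J hj hjR g2 hm hc hφ e he
  set y : ∀ k, FD (S.F k) ι := fun k => scl (x k) (j k) (g2 k) (hm k) with hy
  have hyA : Φ.Adf A y := by
    intro η hη
    have hη2 : 0 < η / 2 := by linarith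
    filter_upwards [hx.1.1 _ hη2, hx.1.1 η hη, hc, hφ η hη, (S.div_n_tendsto (Real.logb 2 (J + 1))).eventually
      (gt_mem_nhds hη2)] with k a a' b c d
    have hn := (S.F k).pos
    rw [div_lt_iff₀ hn] at d
    refine ⟨fun i => ?_, fun ω hω => ⟨(a.2.1 ω hω).1, b ω hω⟩, a'.2.2.1, c⟩
    have h1 := (x k).l.addW_leak_le (Setoid.ker fun ω => (fun _ : Fin 1 => (j k ω : ℤ))) (A i k)
    have h2 := few (T := (x k).l.T) (j k) J (fun ω _ => hj k ω) ((x k).l.v ⊔ (x k).l.p.map (A i k))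
    have h3 := a.1 i
    show ((x k).l.addW _).leak (A i k) ≤ _
    linarith
  have hyC : (LC.kz fun k => fc (R k)).ev (fun k => (y k).l) := by
    filter_upwards [hx.1.2] with k hk
    refine addW_kz (x k).l _ (R k) hk fun ω ω' a b c d r => ?_
    show (fun _ : Fin 1 => (j k ω : ℤ)) = fun _ : Fin 1 => (j k ω' : ℤ)
    rw [hjR k ω ω' a b c d r]
  exact Gau.opt_nearfK Φ _ ⟨hyA, hyC⟩ (fun z hz => hx.2 z hz) e he

end gen

end

end Pool.Agent.Helper89.RAK
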